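import Mathlib
import Pool.Agent.HuaVal.Defs

/-!
Definitions used in the statement about two points of a Hua system.
-/

set_option autoImplicit false

open scoped TensorProduct

namespace Pool.Agent.HuaOne84

open Pool.Agent.HuaVal

/-- The Hua system `j` on `A` arises from a quadratic Jordan division ring on `A`: there are `one`
and a quadratic map `U` satisfying the identities of a quadratic Jordan algebra, also after every
scalar extension, such that `U a` is bijective for `a ≠ 0` and `j a b = U a (b⁻¹)`, where `b⁻¹` is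
the element `c` with `U b c = b`. -/
def FromJordan {A : Type} [AddCommGroup A] (j : A → Option A → Option A) : Prop :=
  ∃ (one : A) (U : QuadraticMap ℤ A (Module.End ℤ A)),
    JordanIdentities U one ∧
    (∀ (Ω : Type) [CommRing Ω] (U' : QuadraticMap Ω (Ω ⊗[ℤ] A) (Module.End Ω (Ω ⊗[ℤ] A))),
      (∀ (a c : A) (ω : Ω), U' ((1 : Ω) ⊗ₜ[ℤ] a) (ω ⊗ₜ[ℤ] c) = ω ⊗ₜ[ℤ] (U a c)) →
      JordanIdentities U' ((1 : Ω) ⊗ₜ[ℤ] one)) ∧
    (∀ a : A, a ≠ 0 → Function.Bijective (U a)) ∧
    (∀ a b c : A, a ≠ 0 → b ≠ 0 → U b c = b → j a (some b) = some (U a c))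

/-- The maps `j` of a Hua system map the image of the field `L` under `φ` to itself in the way of
the field `L`: `j_{φ u} (φ v) = φ (u² v⁻¹)`. -/
def IsFieldPart {A L : Type} [Field L] (j : A → Option A → Option A) (φ : L → A) : Prop :=
  ∀ u v : L, u ≠ 0 → v ≠ 0 → j (φ u) (some (φ v)) = some (φ (u * u * v⁻¹))

end Pool.Agent.HuaOne84
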