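import Mathlib
import Pool.Agent.HuaVal.Alg
import Pool.Agent.HuaTop84.Topo

/-!
Hua systems: the sum formula, the subsystem generated by two elements, and rigidity.
-/

set_option autoImplicit false

namespace Pool.Agent.HuaOne84

open Pool.Agent.HuaTop84 Pool.Agent.HuaVal

/-- The elementary data of a Hua system, with the sum formula. -/
structure HS (A : Type) [AddCommGroup A] extends HD A where
  sum : ∀ a b x, a ≠ 0 → b ≠ 0 → a + b ≠ 0 →
    U (a + b) x = U a (U (inv a + inv b) (U b x))
  diff : ∀ a b, a ≠ b → U a (inv (a - b)) - U b (inv (a - b)) = a + b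

section Construct

variable {A : Type} [AddCommGroup A] {J : A → A → A}

theorem H_change' (hJ : JSys J) {e b : A} (hb : b ≠ 0) (u x : A) :
    H J b u (H J e b x) = H J e u x := by
  rw [H_of_ne (x := b) hb]
  exact H_change hJ hb

theorem H_sum (hJ : JSys J) {e : A} (he : e ≠ 0) (a b x : A) (ha : a ≠ 0) (hb : b ≠ 0) :
    H J e (a + b) x = H J e a (H J e (J e a + J e b) (H J e b x)) := by
  have h1 := H_add_e hJ hb ha (H J e b x)
  rw [H_change' hJ hb, H_change' hJ hb] at h1
  have h2 : J b a + b = H J e b (J e a + J e b) := by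
    rw [H_add hJ he, H_inv_self hJ he, H_of_ne hb, hJ.inv e a he]
  rw [h1, h2, H_H' hJ he, H_change' hJ hb]

/-- The data attached to a system of maps `J`. -/
noncomputable def toHS (hJ : JSys J) (e : A) (he : e ≠ 0) : HS A where
  one := e
  inv := J e
  U := fun a => Hm hJ he a
  one_ne := he
  inv_zero := hJ.zero e he
  inv_ne := fun x hx => J_ne_zero hJ he hx
  inv_inv := fun x => hJ.inv e x he
  inv_neg := fun x => hJ.neg e x he
  U_zero := by
    ext x
    exact H_zero_left J e x
  U_one := fun x => H_self hJ he x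
  U_inv_left := fun w x hw => H_left_inv hJ he hw x
  U_inv_right := fun w x hw => H_right_inv hJ he hw x
  U_self := fun w => H_inv_self hJ he w
  U_U := fun c b x => H_H' hJ he c b x
  inv_U := fun c x hc => J_H hJ he hc x
  hua := by
    intro a b ha hb hab
    change H J e a (J e (a - b)) = _
    have hc : a - b ≠ 0 := sub_ne_zero.mpr hab
    have hac : a ≠ a - b := by
      intro h
      apply hb
      have : b = a - (a - b) := by abel
      rw [this, ← h, sub_self]
    rw [H_of_ne ha, hJ.inv e _ he, hJ.hua e a (a - b) he ha hc hac]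
    congr 4
    abel
  sum := fun a b x ha hb _ => H_sum hJ he a b x ha hb
  diff := fun a b hab => H_sub_H hJ he hab

end Construct

namespace HS

variable {A : Type} [AddCommGroup A] (H : HS A)

theorem inv_one : H.inv H.one = H.one := by
  have h := H.U_self H.one
  rwa [H.U_one] at h

/-- The exchange formula. -/
theorem tri (p q z : A) (hp : p ≠ 0) (hq : q ≠ 0) (hpq : p + q ≠ 0) :
    H.U (p + q) (H.U (H.inv p) (H.U q z)) = H.U q (H.U (H.inv p) (H.U (p + q) z)) := by
  have h1 := H.sum p q z hp hq hpq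
  have h2 := H.sum q p (H.U (H.inv p) (H.U q z)) hq hp (by rwa [add_comm])
  rw [add_comm q p, H.U_inv_right p _ hp, add_comm (H.inv q)] at h2
  rw [h1, H.U_inv_left p _ hp, h2]

theorem U_neg (a x : A) : H.U (-a) x = H.U a x := by
  by_cases ha : a = 0
  · subst ha; rw [neg_zero]
  have hna : -a ≠ 0 := neg_ne_zero.mpr ha
  by_cases hx : x = 0
  · subst hx; rw [map_zero, map_zero]
  by_cases h1 : a = H.inv x
  · have h2 : x = H.inv a := by rw [h1, H.inv_inv]
    have h3 := H.U_self (-a)
    rw [H.inv_neg, map_neg, neg_inj] at h3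
    rw [h2, h3, H.U_self]
  by_cases h2 : -a = H.inv x
  · have h4 : x = H.inv (-a) := by rw [h2, H.inv_inv]
    have h3 := H.U_self (-a)
    have h5 : H.U a (H.inv (-a)) = -a := by rw [H.inv_neg, map_neg, H.U_self]
    rw [h4, h3, h5]
  have h3 := H.U_formula (-a) (-x) hna (neg_ne_zero.mpr hx) (by
    rw [H.inv_neg]; intro h; exact h1 (neg_injective h))
  have h4 := H.U_formula a x ha hx h1
  rw [H.inv_neg, H.inv_neg, sub_neg_eq_add] at h3
  have e1 : -a + H.inv x = -(a - H.inv x) := by abel
  rw [e1, H.inv_neg, sub_neg_eq_add] at h3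
  have e2 : -H.inv a + H.inv (a - H.inv x) = -(H.inv a - H.inv (a - H.inv x)) := by abel
  rw [e2, H.inv_neg, map_neg] at h3
  rw [h4]
  have e3 : H.U (-a) x = -(-H.U (-a) x) := by abel
  rw [e3, h3]
  abel

variable {K : Type} [Field K] [Module K A]

/-- A structural map with its partner. -/
structure SP (K : Type) [Field K] [Module K A] (P P' : A → A) : Prop where
  add : ∀ u v, P (u + v) = P u + P v
  smul : ∀ (t : K) v, P (t • v) = t • P v
  inv : ∀ v, H.inv (P v) = P' (H.inv v)
  U : ∀ a y, H.U (P a) (P' y) = P (H.U a y)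

variable {H}

theorem SP.comp {P P' Q Q' : A → A} (h : H.SP K P P') (g : H.SP K Q Q') :
    H.SP K (fun z => P (Q z)) (fun z => P' (Q' z)) where
  add := fun u v => by rw [g.add, h.add]
  smul := fun t v => by rw [g.smul, h.smul]
  inv := fun v => by rw [h.inv, g.inv]
  U := fun a y => by rw [h.U, g.U]

theorem SP.ofU (S : H.Scal K) {c : A} (hc : c ≠ 0) :
    H.SP K (fun z => H.U c z) (fun z => H.U (H.inv c) z) where
  add := fun u v => map_add _ _ _
  smul := fun t v => S.U_smul c t v
  inv := fun v => H.inv_U c v hc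
  U := fun a y => by rw [H.U_U, H.U_inv_right c _ hc]

variable (H)

/-- The subsystem generated by the unit and `x`, over the field `K`. -/
inductive Gen (K : Type) [Field K] [Module K A] (x : A) : A → Prop
  | one : Gen K x H.one
  | gen : Gen K x x
  | add : ∀ {a b : A}, Gen K x a → Gen K x b → Gen K x (a + b)
  | smul : ∀ (t : K) {a : A}, Gen K x a → Gen K x (t • a)
  | inv : ∀ {a : A}, Gen K x a → Gen K x (H.inv a)

variable {H} {x : A}

theorem Gen.zero : H.Gen K x 0 := by
  have h := Gen.smul (H := H) (K := K) (x := x) 0 Gen.one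
  rwa [zero_smul] at h

theorem Gen.neg {a : A} (ha : H.Gen K x a) : H.Gen K x (-a) := by
  have h := Gen.smul (-1 : K) ha
  rwa [neg_smul, one_smul] at h

theorem Gen.sub {a b : A} (ha : H.Gen K x a) (hb : H.Gen K x b) : H.Gen K x (a - b) := by
  rw [sub_eq_add_neg]
  exact ha.add hb.neg

theorem Gen.U {a b : A} (ha : H.Gen K x a) (hb : H.Gen K x b) : H.Gen K x (H.U a b) := by
  by_cases ha0 : a = 0
  · subst ha0
    have h : H.U 0 b = 0 := by rw [H.U_zero]; rfl
    rw [h]
    exact Gen.zero
  by_cases hb0 : b = 0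
  · subst hb0
    rw [map_zero]
    exact Gen.zero
  by_cases hab : a = H.inv b
  · have h : b = H.inv a := by rw [hab, H.inv_inv]
    rw [h, H.U_self]
    exact ha
  · rw [H.U_formula a b ha0 hb0 hab]
    exact ha.sub (ha.inv.sub (ha.sub hb.inv).inv).inv

/-- Rigidity. -/
theorem rigid {P P' Q Q' : A → A} (hP : H.SP K P P') (hQ : H.SP K Q Q')
    (h1 : P H.one = Q H.one) (hx : P x = Q x) {z : A} (hz : H.Gen K x z) : P z = Q z := by
  induction hz with
  | one => exact h1
  | gen => exact hx
  | add _ _ iha ihb => rw [hP.add, hQ.add, iha, ihb]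
  | smul t _ ih => rw [hP.smul, hQ.smul, ih]
  | @inv a _ ih =>
    have e1 := hP.U H.one (H.inv a)
    have e2 := hQ.U H.one (H.inv a)
    rw [H.U_one] at e1 e2
    rw [← e1, ← e2, ← hP.inv, ← hQ.inv, ih, h1]

end HS

end Pool.Agent.HuaOne84
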