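import Mathlib

/-!
Polynomial lemmas for the induction step.
-/

set_option autoImplicit false

open Polynomial

namespace Pool.Agent.HuaOne84

section

variable {K : Type} [Field K] {A : Type} [AddCommGroup A] [Module K A]

/-- The difference quotient of `P` at `b`, as a polynomial in `b`. -/
noncomputable def NN (b : K) (P : K[X]) (D : ℕ) : K[X] :=
  ∑ j ∈ Finset.range D, C (b ^ j) * (divX^[j + 1] P)

theorem coeff_iter (P : K[X]) (i m : ℕ) : (divX^[i] P).coeff m = P.coeff (m + i) := by
  induction i generalizing m with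
  | zero => rfl
  | succ i ih =>
    rw [Function.iterate_succ_apply', coeff_divX, ih]
    congr 1
    ring

theorem iter_eq_zero (P : K[X]) (i : ℕ) (hi : P.natDegree < i) : divX^[i] P = 0 := by
  ext m
  rw [coeff_iter, coeff_zero]
  exact Polynomial.coeff_eq_zero_of_natDegree_lt (by omega)

theorem NN_spec (b : K) (P : K[X]) (D : ℕ) (hD : P.natDegree < D) :
    P = (X - C b) * NN b P D + C (P.eval b) := by
  have h1 : ∀ j : ℕ, (X : K[X]) * (divX^[j + 1] P) = divX^[j] P - C (P.coeff j) := by
    intro j
    have h := Polynomial.divX_mul_X_add (divX^[j] P)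
    rw [coeff_iter, zero_add, ← Function.iterate_succ_apply' divX j P] at h
    rw [← h]
    ring
  have h2 : (X - C b) * NN b P D =
      ∑ j ∈ Finset.range D, (C (b ^ j) * (divX^[j] P) - C (b ^ (j + 1)) * (divX^[j + 1] P)) -
        ∑ j ∈ Finset.range D, C (P.coeff j * b ^ j) := by
    unfold NN
    rw [Finset.mul_sum, ← Finset.sum_sub_distrib]
    apply Finset.sum_congr rfl
    intro j _
    have h3 : (X - C b) * (C (b ^ j) * (divX^[j + 1] P)) =
        C (b ^ j) * (X * (divX^[j + 1] P)) - C b * C (b ^ j) * (divX^[j + 1] P) := by ring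
    have h4 : (C (b ^ (j + 1)) : K[X]) = C b * C (b ^ j) := by
      rw [← C_mul]
      congr 1
      ring
    rw [h3, h1, h4, C_mul]
    ring
  have h5 : ∑ j ∈ Finset.range D,
      (C (b ^ j) * (divX^[j] P) - C (b ^ (j + 1)) * (divX^[j + 1] P)) =
      C (b ^ 0) * (divX^[0] P) - C (b ^ D) * (divX^[D] P) :=
    Finset.sum_range_sub' (fun j => C (b ^ j) * (divX^[j] P)) D
  have h6 : ∑ j ∈ Finset.range D, C (P.coeff j * b ^ j) = C (P.eval b) := by
    rw [Polynomial.eval_eq_sum_range' hD, map_sum]
  rw [h2, h5, h6, iter_eq_zero P D hD]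
  simp

/-- Extraction of coefficients. -/
theorem extract (E : K[X] →ₗ[K] A) (P : K[X]) (a : K) (v : A) (T : Set K) (hT : T.Infinite)
    (h : ∀ b ∈ T, (b - a) • E (NN b P (P.natDegree + 1)) = v) :
    v = 0 ∧ ∀ j, E (divX^[j + 1] P) = 0 := by
  set D := P.natDegree + 1 with hD
  have key : ∀ l : Module.Dual K A, l v = 0 ∧ ∀ j < D, l (E (divX^[j + 1] P)) = 0 := by
    intro l
    set G : K[X] := ∑ j ∈ Finset.range D, C (l (E (divX^[j + 1] P))) * X ^ j with hG
    have hGe : ∀ b : K, G.eval b = l (E (NN b P D)) := by
      intro b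
      unfold NN
      rw [hG, Polynomial.eval_finsetSum, map_sum, map_sum]
      apply Finset.sum_congr rfl
      intro j _
      rw [eval_mul, eval_C, eval_pow, eval_X, ← Polynomial.smul_eq_C_mul, map_smul, map_smul,
        smul_eq_mul]
      ring
    have hF : (X - C a) * G - C (l v) = 0 := by
      apply Polynomial.eq_zero_of_infinite_isRoot
      apply hT.mono
      intro b hb
      change IsRoot _ b
      rw [IsRoot.def, eval_sub, eval_mul, eval_sub, eval_X, eval_C, eval_C, hGe, ← smul_eq_mul,
        ← map_smul, h b hb, sub_self]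
    have h1 : l v = 0 := by
      have h2 := congrArg (Polynomial.eval a) hF
      rw [eval_sub, eval_mul, eval_sub, eval_X, eval_C, sub_self, zero_mul, eval_C, eval_zero,
        zero_sub, neg_eq_zero] at h2
      exact h2
    rw [h1, C_0, sub_zero] at hF
    have hG0 : G = 0 := by
      rcases mul_eq_zero.mp hF with h3 | h3
      · exact absurd h3 (X_sub_C_ne_zero a)
      · exact h3
    refine ⟨h1, ?_⟩
    intro j hj
    have h4 := congrArg (fun g => Polynomial.coeff g j) hG0
    simp only [hG, Polynomial.finsetSum_coeff, coeff_C_mul, coeff_X_pow, coeff_zero] at h4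
    rw [Finset.sum_eq_single j] at h4
    · simpa using h4
    · intro i _ hij
      rw [if_neg (Ne.symm hij), mul_zero]
    · intro hj'
      exact absurd (Finset.mem_range.mpr hj) hj'
  refine ⟨?_, ?_⟩
  · rw [← Module.forall_dual_apply_eq_zero_iff K v]
    exact fun l => (key l).1
  · intro j
    by_cases hj : j < D
    · rw [← Module.forall_dual_apply_eq_zero_iff K]
      exact fun l => (key l).2 j hj
    · rw [iter_eq_zero P (j + 1) (by omega), map_zero]

/-- Vanishing on low powers. -/
theorem lowdeg (E : K[X] →ₗ[K] A) (R : K[X]) (hR : R ≠ 0)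
    (h : ∀ i, E (divX^[i] R) = 0) : ∀ d, d ≤ R.natDegree → E (X ^ d) = 0 := by
  intro d
  induction d using Nat.strong_induction_on with
  | _ d ih =>
    intro hd
    set R' := divX^[R.natDegree - d] R with hR'
    have hdeg : R'.natDegree < d + 1 := by
      rw [Nat.lt_succ_iff, Polynomial.natDegree_le_iff_coeff_eq_zero]
      intro m hm
      rw [hR', coeff_iter]
      exact Polynomial.coeff_eq_zero_of_natDegree_lt (by omega)
    have hlead : R'.coeff d ≠ 0 := by
      rw [hR', coeff_iter]
      have : d + (R.natDegree - d) = R.natDegree := by omega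
      rw [this]
      exact Polynomial.leadingCoeff_ne_zero.mpr hR
    have h1 := h (R.natDegree - d)
    rw [← hR', R'.as_sum_range' (d + 1) hdeg, map_sum, Finset.sum_range_succ,
      Finset.sum_eq_zero, zero_add] at h1
    · rw [← Polynomial.C_mul_X_pow_eq_monomial, ← Polynomial.smul_eq_C_mul, map_smul] at h1
      exact (smul_eq_zero.mp h1).resolve_left hlead
    · intro i hi
      have hi' := Finset.mem_range.mp hi
      rw [← Polynomial.C_mul_X_pow_eq_monomial, ← Polynomial.smul_eq_C_mul, map_smul,
        ih i hi' (by omega), smul_zero]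

end

section

variable {K : Type} [Field K]

theorem divs (a : K) (f : K[X]) : f = (X - C a) * (f /ₘ (X - C a)) + C (f.eval a) := by
  have h := Polynomial.modByMonic_add_div f (X - C a)
  rw [Polynomial.modByMonic_X_sub_C_eq_C_eval] at h
  rw [add_comm]
  exact h.symm

theorem natDegree_divs (a : K) (f : K[X]) : (f /ₘ (X - C a)).natDegree = f.natDegree - 1 := by
  rw [Polynomial.natDegree_divByMonic f (monic_X_sub_C a), natDegree_X_sub_C]

/-- The decomposition of `f` at a tangent line. -/
theorem tangent (f : K[X]) (s : K) (hs : f.derivative.eval s ≠ 0) :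
    ∃ k : K[X], k.natDegree = f.natDegree - 2 ∧
      f = C (f.derivative.eval s) * (X - C (s - f.eval s / f.derivative.eval s)) +
        (X - C s) ^ 2 * k := by
  have h1 := divs s f
  set f1 := f /ₘ (X - C s) with hf1
  have h2 := divs s f1
  set k := f1 /ₘ (X - C s) with hk
  have hd : f.derivative.eval s = f1.eval s := by
    have h3 := congrArg (fun g => (Polynomial.derivative g).eval s) h1
    simpa using h3
  refine ⟨k, ?_, ?_⟩
  · rw [hk, natDegree_divs, hf1, natDegree_divs]
    omega
  · have h4 : C (f.derivative.eval s) * (X - C (s - f.eval s / f.derivative.eval s)) =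
        C (f.derivative.eval s) * (X - C s) + C (f.eval s) := by
      have h5 : (C (f.eval s) : K[X]) =
          C (f.derivative.eval s) * C (f.eval s / f.derivative.eval s) := by
        rw [← C_mul, mul_div_cancel₀ _ hs]
      rw [h5, C_sub]
      ring
    rw [h4, hd]
    calc f = (X - C s) * f1 + C (f.eval s) := h1
      _ = (X - C s) * ((X - C s) * k + C (f1.eval s)) + C (f.eval s) := by rw [← h2]
      _ = _ := by ring

/-- The tangent lines meet the axis in infinitely many points. -/
theorem tangent_infinite [Infinite K] (f : K[X]) (hd0 : f.derivative ≠ 0)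
    (h1 : ∀ a : K, f ≠ (X - C a) * f.derivative) :
    {a : K | ∃ s : K, f.derivative.eval s ≠ 0 ∧
      a = s - f.eval s / f.derivative.eval s}.Infinite := by
  intro hfin
  have h2 : {s : K | f.derivative.eval s ≠ 0} ⊆
      ⋃ a ∈ {a : K | ∃ s : K, f.derivative.eval s ≠ 0 ∧
        a = s - f.eval s / f.derivative.eval s},
        {s : K | (f - (X - C a) * f.derivative).IsRoot s} := by
    intro s hs
    simp only [Set.mem_iUnion]
    refine ⟨s - f.eval s / f.derivative.eval s, ⟨s, hs, rfl⟩, ?_⟩
    change IsRoot _ s
    have hs' : f.derivative.eval s ≠ 0 := hs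
    rw [IsRoot.def, eval_sub, eval_mul, eval_sub, eval_X, eval_C, sub_sub_cancel,
      div_mul_cancel₀ _ hs', sub_self]
  have h3 : (⋃ a ∈ {a : K | ∃ s : K, f.derivative.eval s ≠ 0 ∧
        a = s - f.eval s / f.derivative.eval s},
        {s : K | (f - (X - C a) * f.derivative).IsRoot s}).Finite := by
    apply Set.Finite.biUnion hfin
    intro a _
    exact Polynomial.finite_setOfPred_isRoot (sub_ne_zero.mpr (h1 a))
  have h4 : {s : K | f.derivative.IsRoot s}.Finite := Polynomial.finite_setOfPred_isRoot hd0
  have h5 : (Set.univ : Set K).Finite := by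
    apply ((h3.subset h2).union h4).subset
    intro s _
    by_cases hs : f.derivative.eval s = 0
    · right; exact hs
    · left; exact hs
  exact Set.infinite_univ h5

end

end Pool.Agent.HuaOne84
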