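import Mathlib
import Pool.Agent.HuaOne84.Basic

/-!
Hua systems with scalars: the commuting maps `U (x - s)` and the polynomial elements.
-/

set_option autoImplicit false

open Polynomial

namespace Pool.Agent.HuaOne84

open Pool.Agent.HuaTop84 Pool.Agent.HuaVal

namespace HS

variable {A : Type} [AddCommGroup A] (H : HS A)
variable {K : Type} [Field K] [Module K A]

/-- The maps `U (x - s)`. -/
noncomputable def Am (x : A) (s : K) (z : A) : A := H.U (x - s • H.one) z

/-- The inverse maps. -/
noncomputable def Ai (x : A) (s : K) (z : A) : A := H.U (H.inv (x - s • H.one)) z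

variable {H} (S : H.Scal K) {x : A} (hx : ∀ s : K, x - s • H.one ≠ 0)

include hx in
theorem Am_Ai (s : K) (z : A) : H.Am x s (H.Ai x s z) = z := H.U_inv_right _ z (hx s)

include hx in
theorem Ai_Am (s : K) (z : A) : H.Ai x s (H.Am x s z) = z := H.U_inv_left _ z (hx s)

include hx in
theorem Am_inj (s : K) {y z : A} (h : H.Am x s y = H.Am x s z) : y = z := by
  rw [← Ai_Am hx s y, h, Ai_Am hx s z]

theorem Am_add (s : K) (y z : A) : H.Am x s (y + z) = H.Am x s y + H.Am x s z := map_add _ _ _

theorem Am_sub (s : K) (y z : A) : H.Am x s (y - z) = H.Am x s y - H.Am x s z := map_sub _ _ _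

theorem Am_zero (s : K) : H.Am x s 0 = 0 := map_zero _

theorem Ai_add (s : K) (y z : A) : H.Ai x s (y + z) = H.Ai x s y + H.Ai x s z := map_add _ _ _

theorem Ai_sub (s : K) (y z : A) : H.Ai x s (y - z) = H.Ai x s y - H.Ai x s z := map_sub _ _ _

include S in
theorem Am_smul (s t : K) (z : A) : H.Am x s (t • z) = t • H.Am x s z := S.U_smul _ t z

include S in
theorem Ai_smul (s t : K) (z : A) : H.Ai x s (t • z) = t • H.Ai x s z := S.U_smul _ t z

include S hx in
theorem Am_comm (s t : K) (z : A) : H.Am x s (H.Am x t z) = H.Am x t (H.Am x s z) := by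
  by_cases hst : s = t
  · rw [hst]
  have hq : (s - t) • H.one ≠ 0 := smul_ne_zero (sub_ne_zero.mpr hst) H.one_ne
  have e1 : x - s • H.one + (s - t) • H.one = x - t • H.one := by
    rw [sub_smul]; abel
  have h := H.tri (x - s • H.one) ((s - t) • H.one) (H.U (x - s • H.one) z) (hx s) hq
    (by rw [e1]; exact hx t)
  rw [e1] at h
  -- U_t (U_s^-1 (c U_s z)) = c U_s^-1 (U_t (U_s z))
  rw [S.U_smul_left, S.U_smul_left, H.U_one, H.U_one, S.U_smul, S.U_smul,
    H.U_inv_left _ _ (hx s)] at h
  have hc : (s - t) * (s - t) ≠ 0 := mul_ne_zero (sub_ne_zero.mpr hst) (sub_ne_zero.mpr hst)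
  have h2 := smul_right_injective A hc h
  have h3 : H.Am x s (H.U (x - t • H.one) z) =
      H.Am x s (H.U (H.inv (x - s • H.one)) (H.U (x - t • H.one) (H.U (x - s • H.one) z))) := by
    rw [h2]
  unfold Am at h3 ⊢
  rw [h3, H.U_inv_right _ _ (hx s)]

include S hx in
theorem Am_Ai_comm (s t : K) (z : A) : H.Am x s (H.Ai x t z) = H.Ai x t (H.Am x s z) := by
  apply Am_inj hx t
  rw [Am_Ai hx, Am_comm S hx, Am_Ai hx]

include S hx in
theorem Ai_comm (s t : K) (z : A) : H.Ai x s (H.Ai x t z) = H.Ai x t (H.Ai x s z) := by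
  apply Am_inj hx s
  rw [Am_Ai hx, Am_Ai_comm S hx, Am_Ai hx]

include S in
theorem sq_add (b : A) (q : K) :
    H.U (b + q • H.one) H.one = H.U b H.one + (2 * q) • b + (q * q) • H.one := by
  by_cases hq : q = 0
  · subst hq; simp
  have hne : b + q • H.one ≠ b := by
    intro h
    exact smul_ne_zero hq H.one_ne (by simpa using h)
  have h := H.diff (b + q • H.one) b hne
  have e1 : b + q • H.one - b = q • H.one := by abel
  rw [e1, S.inv_smul q _ hq, H.inv_one, S.U_smul, S.U_smul, ← smul_sub] at h
  have h2 := congrArg (fun z => q • z) h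
  simp only [smul_smul, mul_inv_cancel₀ hq, one_smul] at h2
  rw [sub_eq_iff_eq_add] at h2
  rw [h2]
  module

include S in
theorem Am_one (s : K) :
    H.Am x s H.one = H.U x H.one - (2 * s) • x + (s * s) • H.one := by
  have h := sq_add S x (-s)
  rw [neg_smul, ← sub_eq_add_neg] at h
  unfold Am
  rw [h]
  module

include S hx in
theorem Am_x (s : K) :
    H.Am x s x = H.U x x - (2 * s) • H.U x H.one + (s * s) • x := by
  have h0 : ∀ z : A, H.U x z = H.Am x (0 : K) z := by
    intro z; unfold Am; rw [zero_smul, sub_zero]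
  have hd := H.diff x (s • H.one) (sub_ne_zero.mp (hx s))
  have h1 := congrArg (H.Am x s) hd
  rw [Am_sub, h0, Am_comm S hx s 0, S.U_smul_left, H.U_one, Am_smul S, Am_add, Am_smul S,
    Am_one S] at h1
  have h2 : H.Am x s (H.inv (x - s • H.one)) = x - s • H.one := H.U_self _
  rw [h2, Am_sub, Am_smul S, ← h0, ← h0] at h1
  have h3 : H.Am x s x = (H.Am x s x + s • (H.U x H.one - (2 * s) • x + (s * s) • H.one)) -
      s • (H.U x H.one - (2 * s) • x + (s * s) • H.one) := by abel
  rw [h3, ← h1]
  module

/-- The powers of `x`. -/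
noncomputable def mm (H : HS A) (x : A) : ℕ → A
  | 0 => H.one
  | 1 => x
  | (k + 2) => H.U x (mm H x k)

include S hx in
theorem Am_mm (s : K) : ∀ k : ℕ, H.Am x s (mm H x k) =
    mm H x (k + 2) - (2 * s) • mm H x (k + 1) + (s * s) • mm H x k
  | 0 => Am_one S s
  | 1 => Am_x S hx s
  | (k + 2) => by
    have h0 : ∀ z : A, H.U x z = H.Am x (0 : K) z := by
      intro z; unfold Am; rw [zero_smul, sub_zero]
    have ih := Am_mm s k
    have e1 : mm H x (k + 2) = H.Am x (0 : K) (mm H x k) := by
      rw [← h0]; rfl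
    have e2 : mm H x (k + 2 + 2) = H.Am x (0 : K) (mm H x (k + 2)) := by
      rw [← h0]; rfl
    have e3 : mm H x (k + 2 + 1) = H.Am x (0 : K) (mm H x (k + 1)) := by
      rw [← h0]; rfl
    rw [e1, Am_comm S hx s 0, ih, Am_add, Am_sub, Am_smul S, Am_smul S, ← e1, ← e2, ← e3]

/-- The polynomials in `x`. -/
noncomputable def psi (K : Type) [Field K] [Module K A] (H : HS A) (x : A) : K[X] →ₗ[K] A :=
  Polynomial.lsum (fun k => LinearMap.toSpanSingleton K A (mm H x k))

theorem psi_monomial (k : ℕ) (c : K) : psi K H x (monomial k c) = c • mm H x k := by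
  unfold psi
  rw [Polynomial.lsum_apply, Polynomial.sum_monomial_index]
  · simp
  · simp

theorem psi_one : psi K H x 1 = H.one := by
  rw [← Polynomial.monomial_zero_one, psi_monomial, one_smul]
  rfl

theorem psi_X : psi K H x X = x := by
  rw [← Polynomial.monomial_one_one_eq_X, psi_monomial, one_smul]
  rfl

theorem psi_C (c : K) : psi K H x (C c) = c • H.one := by
  rw [← Polynomial.monomial_zero_left, psi_monomial]
  rfl

theorem psi_X_sub_C (s : K) : psi K H x (X - C s) = x - s • H.one := by
  rw [map_sub, psi_X, psi_C]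

theorem psi_C_mul (c : K) (f : K[X]) : psi K H x (C c * f) = c • psi K H x f := by
  rw [← Polynomial.smul_eq_C_mul, map_smul]

include S hx in
theorem Am_psi (s : K) (f : K[X]) : H.Am x s (psi K H x f) = psi K H x ((X - C s) ^ 2 * f) := by
  induction f using Polynomial.induction_on' with
  | add p q hp hq => rw [map_add, Am_add, hp, hq, mul_add, map_add]
  | monomial k c =>
    rw [psi_monomial, Am_smul S, Am_mm S hx]
    have e : (X - C s) ^ 2 * (monomial k c : K[X]) =
        monomial (k + 2) c - monomial (k + 1) (2 * s * c) + monomial k (s * s * c) := by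
      have h1 : (monomial (k + 2) c : K[X]) = X ^ 2 * monomial k c := by
        rw [Polynomial.X_pow_mul_monomial]
      have h2 : (monomial (k + 1) (2 * s * c) : K[X]) = C (2 * s) * (X * monomial k c) := by
        rw [Polynomial.X_mul_monomial, Polynomial.C_mul_monomial]
      have h3 : (monomial k (s * s * c) : K[X]) = C (s * s) * monomial k c := by
        rw [Polynomial.C_mul_monomial]
      rw [h1, h2, h3, C_mul, C_mul]
      have h4 : (C (2 : K) : K[X]) = 2 := rfl
      rw [h4]
      ring
    rw [e, map_add, map_sub, psi_monomial, psi_monomial, psi_monomial]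
    module

include S hx in
theorem U_psi (f : K[X]) : H.U x (psi K H x f) = psi K H x (X ^ 2 * f) := by
  have h := Am_psi S hx 0 f
  unfold Am at h
  rwa [zero_smul, sub_zero, C_0, sub_zero] at h

include S hx in
theorem psi_X_mul [NeZero (2 : K)] (f : K[X]) (h : psi K H x f = 0) : psi K H x (X * f) = 0 := by
  have h0 := Am_psi S hx 0 f
  have h1 := Am_psi S hx 1 f
  rw [h, Am_zero] at h0 h1
  have e : (X - C (1 : K)) ^ 2 * f = (X - C (0 : K)) ^ 2 * f - C 2 * (X * f) + f := by
    have h4 : (C (2 : K) : K[X]) = 2 := rfl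
    rw [C_0, C_1, h4]
    ring
  rw [e, map_add, map_sub, ← h0, h, zero_sub, add_zero, psi_C_mul] at h1
  have h2 : (2 : K) • psi K H x (X * f) = 0 := by
    rw [← neg_eq_zero]; exact h1.symm
  exact (smul_eq_zero.mp h2).resolve_left (NeZero.ne _)

include S hx in
theorem psi_mul_zero [NeZero (2 : K)] (g f : K[X]) (h : psi K H x f = 0) :
    psi K H x (g * f) = 0 := by
  induction g using Polynomial.induction_on' with
  | add p q hp hq => rw [add_mul, map_add, hp, hq, add_zero]
  | monomial k c =>
    have h1 : ∀ k : ℕ, psi K H x (X ^ k * f) = 0 := by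
      intro k
      induction k with
      | zero => rwa [pow_zero, one_mul]
      | succ k ih =>
        rw [pow_succ', mul_assoc]
        exact psi_X_mul S hx _ ih
    rw [← Polynomial.C_mul_X_pow_eq_monomial, mul_assoc, psi_C_mul, h1, smul_zero]

include hx in
/-- The element `1 / (x - a)`. -/
theorem rho_eq (a : K) : H.inv (x - a • H.one) = H.Ai x a (psi K H x (X - C a)) := by
  rw [psi_X_sub_C]
  apply Am_inj hx a
  rw [Am_Ai hx]
  exact H.U_self _

theorem Gen.psi (f : K[X]) : H.Gen K x (psi K H x f) := by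
  induction f using Polynomial.induction_on' with
  | add p q hp hq => rw [map_add]; exact hp.add hq
  | monomial k c =>
    rw [psi_monomial]
    apply Gen.smul
    have h : ∀ k : ℕ, H.Gen K x (mm H x k) ∧ H.Gen K x (mm H x (k + 1)) := by
      intro k
      induction k with
      | zero => exact ⟨Gen.one, Gen.gen⟩
      | succ k ih => exact ⟨ih.2, Gen.gen.U ih.1⟩
    exact (h k).1

theorem Gen.base (s : K) : H.Gen K x (x - s • H.one) := Gen.gen.sub (Gen.smul s Gen.one)

theorem Gen.Am (s : K) {z : A} (hz : H.Gen K x z) : H.Gen K x (H.Am x s z) :=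
  (Gen.base s).U hz

theorem Gen.Ai (s : K) {z : A} (hz : H.Gen K x z) : H.Gen K x (H.Ai x s z) :=
  (Gen.base s).inv.U hz

end HS

end Pool.Agent.HuaOne84
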