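import Mathlib
import Pool.Agent.HuaOne84.Poly
import Pool.Agent.HuaOne84.Extract

/-!
The multiplication rule `U (f x) (g x) = (f ^ 2 g) x` for polynomials.
-/

set_option autoImplicit false

open Polynomial

namespace Pool.Agent.HuaOne84

open Pool.Agent.HuaTop84 Pool.Agent.HuaVal

namespace HS

variable {A : Type} [AddCommGroup A] {H : HS A}
variable {K : Type} [Field K] [Module K A]

/-- The multiplication rule for `f`. -/
def corr (K : Type) [Field K] [Module K A] (H : HS A) (x : A) (f : K[X]) : Prop :=
  ∀ g : K[X], H.U (psi K H x f) (psi K H x g) = psi K H x (f ^ 2 * g)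

variable (S : H.Scal K) {x : A} (hx : ∀ s : K, x - s • H.one ≠ 0)

include S hx in
theorem corr_zero [NeZero (2 : K)] {f : K[X]} (hf : psi K H x f = 0) : corr K H x f := by
  intro g
  have h1 : psi K H x (f ^ 2 * g) = 0 := by
    have : f ^ 2 * g = (f * g) * f := by ring
    rw [this]
    exact psi_mul_zero S hx _ f hf
  rw [h1, hf]
  have h : H.U 0 (psi K H x g) = 0 := by rw [H.U_zero]; rfl
  exact h

include S hx in
theorem comm_of_corr {f : K[X]} (hc : corr K H x f) (s : K) {z : A} (hz : H.Gen K x z) :
    H.U (psi K H x f) (H.Am x s z) = H.Am x s (H.U (psi K H x f) z) := by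
  by_cases hf : psi K H x f = 0
  · rw [hf]
    have h : ∀ z, H.U 0 z = 0 := by intro z; rw [H.U_zero]; rfl
    rw [h, h, Am_zero]
  have h1 := (SP.ofU S hf).comp (SP.ofU S (hx s))
  have h2 := (SP.ofU S (hx s)).comp (SP.ofU S hf)
  refine rigid h1 h2 ?_ ?_ hz
  · change H.U (psi K H x f) (H.Am x s H.one) = H.Am x s (H.U (psi K H x f) H.one)
    rw [← psi_one (K := K) (H := H) (x := x), Am_psi S hx, hc, hc, Am_psi S hx]
    congr 1
    ring
  · change H.U (psi K H x f) (H.Am x s x) = H.Am x s (H.U (psi K H x f) x)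
    have e : x = psi K H x (X : K[X]) := psi_X.symm
    have h3 : H.Am x s x = H.Am x s (psi K H x (X : K[X])) := by rw [← e]
    have h4 : H.U (psi K H x f) x = H.U (psi K H x f) (psi K H x (X : K[X])) := by rw [← e]
    rw [h3, h4, Am_psi S hx, hc, hc, Am_psi S hx]
    congr 1
    ring

include S hx in
theorem comm_of_corr' {f : K[X]} (hc : corr K H x f) (s : K) {z : A} (hz : H.Gen K x z) :
    H.U (psi K H x f) (H.Ai x s z) = H.Ai x s (H.U (psi K H x f) z) := by
  apply Am_inj hx s
  rw [← comm_of_corr S hx hc s (Gen.Ai s hz), Am_Ai hx, Am_Ai hx]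

include S hx in
theorem corr_sq {k : K[X]} (hk : corr K H x k) (s : K) :
    corr K H x ((X - C s) ^ 2 * k) := by
  intro g
  rw [← Am_psi S hx]
  unfold Am
  rw [H.U_U]
  change H.Am x s (H.U (psi K H x k) (H.Am x s (psi K H x g))) = _
  rw [Am_psi S hx, hk, Am_psi S hx]
  congr 1
  ring

include S in
theorem corr_C (c : K) : corr K H x (C c) := by
  intro g
  rw [psi_C, S.U_smul_left, H.U_one, sq, mul_assoc, psi_C_mul, psi_C_mul, smul_smul]

include S hx in
theorem corr_lin (d a : K) : corr K H x (C d * (X - C a)) := by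
  intro g
  rw [psi_C_mul, psi_X_sub_C, S.U_smul_left]
  change (d * d) • H.Am x a (psi K H x g) = _
  have e : (C d * (X - C a)) ^ 2 * g = C (d * d) * ((X - C a) ^ 2 * g) := by
    rw [C_mul]; ring
  rw [Am_psi S hx, e, psi_C_mul]

/-- The defect maps. -/
noncomputable def E0 (S : H.Scal K) (x : A) (f : K[X]) : K[X] →ₗ[K] A where
  toFun g := H.U (psi K H x f) (psi K H x g) - psi K H x (f ^ 2 * g)
  map_add' g g' := by
    rw [map_add, map_add, mul_add, map_add]
    abel
  map_smul' t g := by
    rw [map_smul, S.U_smul, mul_smul_comm, map_smul, smul_sub]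
    rfl

noncomputable def Ea (S : H.Scal K) (x : A) (f : K[X]) (a : K) : K[X] →ₗ[K] A where
  toFun g := H.U (psi K H x f) (H.Ai x a (psi K H x g)) - H.Ai x a (psi K H x (f ^ 2 * g))
  map_add' g g' := by
    rw [map_add, Ai_add, map_add, mul_add, map_add, Ai_add]
    abel
  map_smul' t g := by
    rw [map_smul, Ai_smul S, S.U_smul, mul_smul_comm, map_smul, Ai_smul S, smul_sub]
    rfl

noncomputable def Eab (S : H.Scal K) (x : A) (f : K[X]) (a b : K) : K[X] →ₗ[K] A where
  toFun g := H.U (psi K H x f) (H.Ai x a (H.Ai x b (psi K H x g))) -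
    H.Ai x a (H.Ai x b (psi K H x (f ^ 2 * g)))
  map_add' g g' := by
    rw [map_add, Ai_add, Ai_add, map_add, mul_add, map_add, Ai_add, Ai_add]
    abel
  map_smul' t g := by
    rw [map_smul, Ai_smul S, Ai_smul S, S.U_smul, mul_smul_comm, map_smul, Ai_smul S,
      Ai_smul S, smul_sub]
    rfl

theorem E0_apply (f g : K[X]) : E0 S x f g =
    H.U (psi K H x f) (psi K H x g) - psi K H x (f ^ 2 * g) := rfl

theorem Ea_apply (f : K[X]) (a : K) (g : K[X]) : Ea S x f a g =
    H.U (psi K H x f) (H.Ai x a (psi K H x g)) - H.Ai x a (psi K H x (f ^ 2 * g)) := rfl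

theorem Eab_apply (f : K[X]) (a b : K) (g : K[X]) : Eab S x f a b g =
    H.U (psi K H x f) (H.Ai x a (H.Ai x b (psi K H x g))) -
    H.Ai x a (H.Ai x b (psi K H x (f ^ 2 * g))) := rfl

include S hx in
theorem Ai_psi_sq (a : K) (g : K[X]) :
    H.Ai x a (psi K H x ((X - C a) ^ 2 * g)) = psi K H x g := by
  rw [← Am_psi S hx, Ai_Am hx]

include hx in
theorem Ea_sq (f : K[X]) (a : K) (g : K[X]) :
    Ea S x f a ((X - C a) ^ 2 * g) = E0 S x f g := by
  have e : f ^ 2 * ((X - C a) ^ 2 * g) = (X - C a) ^ 2 * (f ^ 2 * g) := by ring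
  rw [Ea_apply, E0_apply, e, Ai_psi_sq S hx, Ai_psi_sq S hx]

include hx in
theorem Eab_sq_b (f : K[X]) (a b : K) (g : K[X]) :
    Eab S x f a b ((X - C b) ^ 2 * g) = Ea S x f a g := by
  have e : f ^ 2 * ((X - C b) ^ 2 * g) = (X - C b) ^ 2 * (f ^ 2 * g) := by ring
  rw [Eab_apply, Ea_apply, e, Ai_psi_sq S hx, Ai_psi_sq S hx]

include hx in
theorem Eab_sq_a (f : K[X]) (a b : K) (g : K[X]) :
    Eab S x f a b ((X - C a) ^ 2 * g) = Ea S x f b g := by
  have e : f ^ 2 * ((X - C a) ^ 2 * g) = (X - C a) ^ 2 * (f ^ 2 * g) := by ring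
  rw [Eab_apply, Ea_apply, e, Ai_comm S hx a b, Ai_comm S hx a b, Ai_psi_sq S hx,
    Ai_psi_sq S hx]

section Tangent

variable {f q : K[X]} {d a : K} (hd : d ≠ 0) (hf : f = C d * (X - C a) + q)
  (hcq : corr K H x q) (hf0 : psi K H x f ≠ 0) (hq0 : psi K H x q ≠ 0)

include S hx hd hf hf0 hq0 in
theorem T_rule (z : A) :
    H.U (psi K H x f) (H.Ai x a (H.U (psi K H x q) z)) =
    H.U (psi K H x q) (H.Ai x a (H.U (psi K H x f) z)) := by
  have hp : psi K H x (C d * (X - C a)) = d • (x - a • H.one) := by
    rw [psi_C_mul, psi_X_sub_C]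
  have hp0 : d • (x - a • H.one) ≠ 0 := smul_ne_zero hd (hx a)
  have hsum : psi K H x f = d • (x - a • H.one) + psi K H x q := by
    rw [← hp, ← map_add, ← hf]
  have h := H.tri (d • (x - a • H.one)) (psi K H x q) z hp0 hq0
    (by rw [← hsum]; exact hf0)
  rw [← hsum, S.inv_smul d _ hd, S.U_smul_left, S.U_smul, S.U_smul_left, S.U_smul] at h
  have hc : d⁻¹ * d⁻¹ ≠ 0 := mul_ne_zero (inv_ne_zero hd) (inv_ne_zero hd)
  exact smul_right_injective A hc h

include hx hd hf hcq in
theorem M_rule : Ea S x f a (X - C a) = 0 := by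
  have hp : psi K H x (C d * (X - C a)) = d • (x - a • H.one) := by
    rw [psi_C_mul, psi_X_sub_C]
  have hp0 : d • (x - a • H.one) ≠ 0 := smul_ne_zero hd (hx a)
  have hsub : psi K H x f - psi K H x q = d • (x - a • H.one) := by
    rw [← hp, ← map_sub]
    congr 1
    rw [hf]; ring
  have hne : psi K H x f ≠ psi K H x q := by
    intro h
    rw [h, sub_self] at hsub
    exact hp0 hsub.symm
  have h := H.diff _ _ hne
  rw [hsub, S.inv_smul d _ hd, S.U_smul, S.U_smul, ← smul_sub] at h
  have h2 := congrArg (fun z => d • z) h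
  simp only [smul_smul, mul_inv_cancel₀ hd, one_smul] at h2
  rw [rho_eq hx, comm_of_corr' S hx hcq a (Gen.psi _), hcq, sub_eq_iff_eq_add] at h2
  rw [Ea_apply, h2, sub_eq_zero, ← map_add, ← map_smul, ← Ai_psi_sq S hx a, ← Ai_add,
    ← map_add]
  congr 2
  rw [Polynomial.smul_eq_C_mul, hf]
  ring

include hx hd hf hcq hf0 hq0 in
theorem T_g {g : K[X]} (hg : E0 S x f g = 0) :
    Ea S x f a (q ^ 2 * g) = 0 := by
  have h := T_rule S hx hd hf hf0 hq0 (psi K H x g)
  rw [E0_apply, sub_eq_zero] at hg
  rw [hg, hcq, comm_of_corr' S hx hcq a (Gen.psi _), hcq] at h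
  rw [Ea_apply, h, sub_eq_zero]
  congr 2
  ring

include hx hd hf hcq hf0 hq0 in
theorem T_b {b : K} (hb : Ea S x f b (X - C b) = 0) :
    Eab S x f a b (q ^ 2 * (X - C b)) = 0 := by
  have h := T_rule S hx hd hf hf0 hq0 (H.Ai x b (psi K H x (X - C b)))
  rw [Ea_apply, sub_eq_zero] at hb
  rw [hb, comm_of_corr' S hx hcq b (Gen.psi _), hcq,
    comm_of_corr' S hx hcq a (Gen.Ai b (Gen.psi _)), comm_of_corr' S hx hcq b (Gen.psi _),
    hcq] at h
  rw [Eab_apply, h, sub_eq_zero]
  congr 3
  ring

end Tangent

include S hx in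
/-- From the first four powers to all powers. -/
theorem corr_of_four {f : K[X]} (hf0 : psi K H x f ≠ 0)
    (h : ∀ d, d ≤ 3 → E0 S x f (X ^ d) = 0) : corr K H x f := by
  have hx0 : x ≠ 0 := by
    have := hx 0
    rwa [zero_smul, sub_zero] at this
  have h1 := (SP.ofU S hf0).comp (SP.ofU S hx0)
  have h2 := (SP.ofU S hx0).comp (SP.ofU S hf0)
  have e0 : H.U (psi K H x f) H.one = psi K H x (f ^ 2) := by
    have := h 0 (by norm_num)
    rw [E0_apply, pow_zero, mul_one, psi_one, sub_eq_zero] at this
    exact this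
  have e1 : H.U (psi K H x f) x = psi K H x (f ^ 2 * X) := by
    have := h 1 (by norm_num)
    rw [E0_apply, pow_one, psi_X, sub_eq_zero] at this
    exact this
  have e2 : H.U (psi K H x f) (psi K H x (X ^ 2 : K[X])) = psi K H x (f ^ 2 * X ^ 2) := by
    have := h 2 (by norm_num)
    rw [E0_apply, sub_eq_zero] at this
    exact this
  have e3 : H.U (psi K H x f) (psi K H x (X ^ 3 : K[X])) = psi K H x (f ^ 2 * X ^ 3) := by
    have := h 3 (by norm_num)
    rw [E0_apply, sub_eq_zero] at this
    exact this
  have key : ∀ z, H.Gen K x z → H.U (psi K H x f) (H.U x z) = H.U x (H.U (psi K H x f) z) := by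
    intro z hz
    refine rigid h1 h2 ?_ ?_ hz
    · change H.U (psi K H x f) (H.U x H.one) = H.U x (H.U (psi K H x f) H.one)
      rw [e0, U_psi S hx]
      have e4 : H.U x H.one = psi K H x (X ^ 2 : K[X]) := by
        rw [← psi_one (K := K) (H := H) (x := x), U_psi S hx, mul_one]
      rw [e4, e2, mul_comm]
    · change H.U (psi K H x f) (H.U x x) = H.U x (H.U (psi K H x f) x)
      rw [e1, U_psi S hx]
      have e4 : H.U x x = psi K H x (X ^ 3 : K[X]) := by
        have e5 : H.U x (psi K H x (X : K[X])) = psi K H x (X ^ 2 * X : K[X]) := U_psi S hx _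
        rw [psi_X] at e5
        rw [e5]
        congr 1
      rw [e4, e3]
      congr 1
      ring
  have pw : ∀ n, E0 S x f (X ^ n) = 0 ∧ E0 S x f (X ^ (n + 1)) = 0 := by
    intro n
    induction n with
    | zero => exact ⟨h 0 (by norm_num), h 1 (by norm_num)⟩
    | succ n ih =>
      refine ⟨ih.2, ?_⟩
      have h3 := ih.1
      rw [E0_apply, sub_eq_zero] at h3
      rw [E0_apply, sub_eq_zero]
      have h4 := key _ (Gen.psi (X ^ n : K[X]))
      rw [h3, U_psi S hx, U_psi S hx] at h4
      have h5 : (X ^ (n + 1 + 1) : K[X]) = X ^ 2 * X ^ n := by ring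
      rw [h5, h4]
      congr 1
      ring
  intro g
  have hg : E0 S x f g = 0 := by
    induction g using Polynomial.induction_on' with
    | add p q hp hq => rw [map_add, hp, hq, add_zero]
    | monomial n c =>
      rw [← Polynomial.C_mul_X_pow_eq_monomial, ← Polynomial.smul_eq_C_mul, map_smul,
        (pw n).1, smul_zero]
  rw [E0_apply, sub_eq_zero] at hg
  exact hg

include S hx in
/-- The main step: enough decompositions `f = d (X - a) + q` with good `q`. -/
theorem corr_of_data {f : K[X]} (hn : 2 ≤ f.natDegree) (T : Set K) (hTinf : T.Infinite)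
    (data : ∀ a ∈ T, ∃ (d : K) (q : K[X]), d ≠ 0 ∧ f = C d * (X - C a) + q ∧ corr K H x q)
    [NeZero (2 : K)] : corr K H x f := by
  by_cases hf0 : psi K H x f = 0
  · exact corr_zero S hx hf0
  have hfne : f ≠ 0 := by
    rintro rfl
    simp at hn
  by_cases hcase : ∃ a ∈ T, ∃ (d : K) (q : K[X]), d ≠ 0 ∧
      f = C d * (X - C a) + q ∧ psi K H x q = 0
  · obtain ⟨a, -, d, q, hd, hf, hq⟩ := hcase
    intro g
    have h1 : psi K H x f = psi K H x (C d * (X - C a)) := by
      conv_lhs => rw [hf]
      rw [map_add, hq, add_zero]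
    rw [h1, corr_lin S hx d a g]
    have h2 : f ^ 2 * g = (C d * (X - C a)) ^ 2 * g +
        ((f + C d * (X - C a)) * g) * q := by
      have h3 : q = f - C d * (X - C a) := by
        conv_rhs => rw [hf]
        ring
      rw [h3]
      ring
    rw [h2, map_add, psi_mul_zero S hx _ _ hq, add_zero]
  · push Not at hcase
    -- the first evaluation rule
    have hM : ∀ a ∈ T, Ea S x f a (X - C a) = 0 := by
      intro a ha
      obtain ⟨d, q, hd, hf, hq⟩ := data a ha
      exact M_rule S hx hd hf hq
    obtain ⟨a, ha⟩ := hTinf.nonempty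
    obtain ⟨d, q, hd, hf, hck⟩ := data a ha
    have hq0 : psi K H x q ≠ 0 := hcase a ha d q hd hf
    have hqdeg : q.natDegree = f.natDegree := by
      have h1 : q = f - C d * (X - C a) := by
        conv_rhs => rw [hf]
        ring
      have h2 : (C d * (X - C a)).natDegree < f.natDegree := by
        refine lt_of_le_of_lt (Polynomial.natDegree_C_mul_le _ _) ?_
        rw [natDegree_X_sub_C]
        omega
      rw [h1, Polynomial.natDegree_sub_eq_left_of_natDegree_lt h2]
    -- division of q ^ 2
    set Q1 := (q ^ 2) /ₘ (X - C a) with hQ1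
    set P := Q1 /ₘ (X - C a) with hP
    have d1 := divs a (q ^ 2)
    rw [← hQ1] at d1
    have d2 := divs a Q1
    rw [← hP] at d2
    set be := (q ^ 2).eval a with hbe
    set al := Q1.eval a with hal
    have d3 : q ^ 2 = (X - C a) ^ 2 * P + C al * (X - C a) + C be := by
      calc q ^ 2 = (X - C a) * Q1 + C be := d1
        _ = (X - C a) * ((X - C a) * P + C al) + C be := by rw [← d2]
        _ = _ := by ring
    have hPdeg : P.natDegree = 2 * f.natDegree - 2 := by
      rw [hP, natDegree_divs, hQ1, natDegree_divs, Polynomial.natDegree_pow, hqdeg]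
      omega
    have hPne : P ≠ 0 := by
      intro h
      rw [h, natDegree_zero] at hPdeg
      omega
    set ep := Ea S x f a 1 with hep
    -- the relation for every b
    have rel : ∀ b ∈ T \ {a},
        (b - a) • E0 S x f (NN b P (P.natDegree + 1)) = be • ep := by
      rintro b ⟨hb, hba⟩
      have hba' : b ≠ a := by simpa using hba
      have hdel : b - a ≠ 0 := sub_ne_zero.mpr hba'
      set N := NN b P (P.natDegree + 1) with hN
      have hNs : P = (X - C b) * N + C (P.eval b) := NN_spec b P _ (Nat.lt_succ_self _)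
      set pb := P.eval b with hpb
      set De := (b - a)⁻¹ with hDe
      have hD : (C De : K[X]) * ((X - C a) - (X - C b)) = 1 := by
        have : (X - C a : K[X]) - (X - C b) = C (b - a) := by rw [C_sub]; ring
        rw [this, ← C_mul, hDe, inv_mul_cancel₀ hdel, C_1]
      have hTb := T_b S hx hd hf hck hf0 hq0 (hM b hb)
      have hid : q ^ 2 * (X - C b) =
          (X - C a) ^ 2 * ((X - C b) ^ 2 * N) +
          C (pb + al * De + be * De ^ 2) * ((X - C a) ^ 2 * (X - C b)) -
          C (al * De + be * De ^ 2) * ((X - C b) ^ 2 * (X - C a)) -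
          C (be * De) * ((X - C b) ^ 2 * 1) := by
        have hNs' := hNs
        rw [d3]
        simp only [C_add, C_mul, C_pow]
        linear_combination (X - C a) ^ 2 * (X - C b) * hNs' -
          (C al * (X - C a) * (X - C b) + C be * (X - C b) +
            C be * (X - C b) * C De * (X - C a)) * hD
      rw [hid, map_sub, map_sub, map_add, ← Polynomial.smul_eq_C_mul,
        ← Polynomial.smul_eq_C_mul, ← Polynomial.smul_eq_C_mul, map_smul, map_smul, map_smul,
        Eab_sq_a S hx, Eab_sq_a S hx, Eab_sq_b S hx, Eab_sq_b S hx, Ea_sq S hx, hM a ha,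
        hM b hb, smul_zero, smul_zero, add_zero, sub_zero, sub_eq_zero] at hTb
      rw [hTb, smul_smul, hDe]
      congr 1
      field_simp
    have hTinf' : (T \ {a}).Infinite := hTinf.sdiff (Set.finite_singleton a)
    obtain ⟨hbe0, hEj⟩ := extract (E0 S x f) P a (be • ep) (T \ {a}) hTinf' rel
    -- vanishing on 1 and X
    have hdX : divX P ≠ 0 := by
      intro h
      have h5 := Polynomial.natDegree_divX_eq_natDegree_tsub_one (p := P)
      rw [h, natDegree_zero] at h5
      omega
    have low1 := lowdeg (E0 S x f) (divX P) hdX (by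
      intro i
      have := hEj i
      rwa [Function.iterate_succ_apply] at this)
    have hdXdeg : (divX P).natDegree = 2 * f.natDegree - 3 := by
      rw [Polynomial.natDegree_divX_eq_natDegree_tsub_one, hPdeg]
      omega
    have z0 : E0 S x f 1 = 0 := by
      have := low1 0 (Nat.zero_le _)
      rwa [pow_zero] at this
    have z1 : E0 S x f X = 0 := by
      have := low1 1 (by omega)
      rwa [pow_one] at this
    -- vanishing on P and P * X
    have zP : E0 S x f P = 0 := by
      have h := T_g S hx hd hf hck hf0 hq0 z0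
      have e : q ^ 2 * 1 = (X - C a) ^ 2 * P + C al * (X - C a) + C be * 1 := by
        rw [mul_one, mul_one, d3]
      rw [e, map_add, map_add, ← Polynomial.smul_eq_C_mul, ← Polynomial.smul_eq_C_mul, map_smul,
        map_smul, hM a ha, smul_zero, add_zero, Ea_sq S hx, ← hep, hbe0, add_zero] at h
      exact h
    have zPX : E0 S x f (P * X) = 0 := by
      have h := T_g S hx hd hf hck hf0 hq0 z1
      have e : q ^ 2 * X = (X - C a) ^ 2 * (P * X) +
          C al * ((X - C a) ^ 2 * 1) + C (al * a + be) * (X - C a) + C (a * be) * 1 := by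
        rw [d3]
        simp only [C_add, C_mul]
        ring
      rw [e, map_add, map_add, map_add, ← Polynomial.smul_eq_C_mul,
        ← Polynomial.smul_eq_C_mul, ← Polynomial.smul_eq_C_mul, map_smul, map_smul,
        map_smul, hM a ha, smul_zero, add_zero, Ea_sq S hx, Ea_sq S hx, z0, smul_zero,
        add_zero, ← hep, mul_smul, hbe0, smul_zero, add_zero] at h
      exact h
    have hPXne : P * X ≠ 0 := mul_ne_zero hPne X_ne_zero
    have hPXdeg : (P * X).natDegree = 2 * f.natDegree - 1 := by
      rw [Polynomial.natDegree_mul hPne X_ne_zero, natDegree_X, hPdeg]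
      omega
    have hdPX : divX (P * X) = P := by
      ext m
      rw [coeff_divX, coeff_mul_X]
    have low2 := lowdeg (E0 S x f) (P * X) hPXne (by
      intro i
      rcases i with _ | i
      · exact zPX
      · rw [Function.iterate_succ_apply, hdPX]
        rcases i with _ | i
        · exact zP
        · exact hEj i)
    exact corr_of_four S hx hf0 (fun d hd => low2 d (by omega))

include S hx in
/-- The induction step. -/
theorem corr_step [Infinite K] [NeZero (2 : K)] {f : K[X]} (hn : 2 ≤ f.natDegree)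
    (IH : ∀ k : K[X], k.natDegree < f.natDegree → corr K H x k) : corr K H x f := by
  -- the generic case, for every polynomial of the same degree
  have gen : ∀ g : K[X], g.natDegree = f.natDegree → g.derivative ≠ 0 →
      (∀ a : K, g ≠ (X - C a) * g.derivative) → corr K H x g := by
    intro g hg h1 h2
    refine corr_of_data S hx (by omega) _ (tangent_infinite g h1 h2) ?_
    rintro a ⟨s, hs, rfl⟩
    obtain ⟨k, hk, hk2⟩ := tangent g s hs
    exact ⟨_, _, hs, hk2, corr_sq S hx (IH k (by omega)) s⟩
  have hdeg : ∀ a : K, (f - (X - C a)).natDegree = f.natDegree := by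
    intro a
    apply Polynomial.natDegree_sub_eq_left_of_natDegree_lt
    rw [natDegree_X_sub_C]
    omega
  have hder : ∀ a : K, (f - (X - C a)).derivative = f.derivative - 1 := by
    intro a
    simp
  by_cases h1 : f.derivative = 0
  · refine corr_of_data S hx hn Set.univ Set.infinite_univ ?_
    intro a _
    refine ⟨1, f - (X - C a), one_ne_zero, by rw [C_1]; ring, ?_⟩
    apply gen _ (hdeg a)
    · rw [hder, h1, zero_sub]
      exact neg_ne_zero.mpr one_ne_zero
    · intro b hb
      rw [hder, h1] at hb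
      have h3 : f = C (b - a) := by
        have h4 : f = (f - (X - C a)) + (X - C a) := by ring
        rw [h4, hb, C_sub]
        ring
      rw [h3, natDegree_C] at hn
      omega
  by_cases h2 : ∃ a : K, f = (X - C a) * f.derivative
  · obtain ⟨a0, ha0⟩ := h2
    have hnc : ∀ c : K, f.derivative ≠ C c := by
      intro c hc
      rw [hc] at ha0
      have h5 : f.natDegree ≤ 1 := by
        rw [ha0, mul_comm]
        refine (Polynomial.natDegree_C_mul_le _ _).trans ?_
        rw [natDegree_X_sub_C]
      omega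
    refine corr_of_data S hx hn {a0}ᶜ (Set.finite_singleton a0).infinite_compl ?_
    intro a ha
    have ha' : a ≠ a0 := by simpa using ha
    refine ⟨1, f - (X - C a), one_ne_zero, by rw [C_1]; ring, ?_⟩
    apply gen _ (hdeg a)
    · rw [hder]
      intro h
      apply hnc 1
      rw [C_1]
      exact sub_eq_zero.mp h
    · intro b hb
      rw [hder] at hb
      have h3 : C (b - a0) * f.derivative = C (b - a) := by
        rw [C_sub, C_sub]
        linear_combination hb - ha0
      by_cases hb0 : b = a0
      · subst hb0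
        rw [sub_self, C_0, zero_mul] at h3
        have h6 := (Polynomial.C_eq_zero.mp h3.symm)
        exact ha' (sub_eq_zero.mp h6).symm
      · apply hnc ((b - a0)⁻¹ * (b - a))
        have h7 : (C (b - a0) : K[X]) ≠ 0 := Polynomial.C_ne_zero.mpr (sub_ne_zero.mpr hb0)
        apply mul_left_cancel₀ h7
        rw [h3, ← C_mul, ← mul_assoc, mul_inv_cancel₀ (sub_ne_zero.mpr hb0), one_mul]
  · push Not at h2
    exact gen f rfl h1 h2

include S hx in
/-- The multiplication rule holds for all polynomials. -/
theorem corr_all [Infinite K] [NeZero (2 : K)] (f : K[X]) : corr K H x f := by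
  induction hn : f.natDegree using Nat.strong_induction_on generalizing f with
  | _ n ih =>
    by_cases h2 : 2 ≤ n
    · subst hn
      exact corr_step S hx h2 (fun k hk => ih _ hk k rfl)
    · have h1 : f.natDegree ≤ 1 := by omega
      by_cases h0 : f.natDegree = 0
      · rw [Polynomial.eq_C_of_natDegree_eq_zero h0]
        exact corr_C S _
      · have h3 : f.natDegree = 1 := by omega
        have hl : f.coeff 1 ≠ 0 := by
          have h4 : f ≠ 0 := by
            rintro rfl
            simp at h3
          have := Polynomial.leadingCoeff_ne_zero.mpr h4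
          rwa [Polynomial.leadingCoeff, h3] at this
        have e : f = C (f.coeff 1) * (X - C (-(f.coeff 0) / f.coeff 1)) := by
          have h5 := Polynomial.eq_X_add_C_of_natDegree_le_one h1
          have h6 : (C (f.coeff 1) : K[X]) * C (-(f.coeff 0) / f.coeff 1) =
              - C (f.coeff 0) := by
            rw [← C_mul, mul_div_cancel₀ _ hl, C_neg]
          conv_lhs => rw [h5]
          rw [mul_sub, h6]
          ring
        rw [e]
        exact corr_lin S hx _ _

end HS

end Pool.Agent.HuaOne84
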