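import Mathlib
import Pool.Agent.HuaOne84.Step

/-!
The field attached to two elements of a Hua system.
-/

set_option autoImplicit false

open Polynomial

namespace Pool.Agent.HuaOne84

open Pool.Agent.HuaTop84 Pool.Agent.HuaVal

namespace HS

variable {A : Type} [AddCommGroup A] {H : HS A}
variable {K : Type} [Field K] [Infinite K] [NeZero (2 : K)] [Module K A]

variable (S : H.Scal K) {x : A} (hx : ∀ s : K, x - s • H.one ≠ 0)

/-- The ideal of relations. -/
noncomputable def Idl (S : H.Scal K) {x : A} (hx : ∀ s : K, x - s • H.one ≠ 0) : Ideal K[X] where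
  carrier := {f | psi K H x f = 0}
  zero_mem' := map_zero _
  add_mem' := by
    intro a b ha hb
    change psi K H x (a + b) = 0
    rw [map_add, show psi K H x a = 0 from ha, show psi K H x b = 0 from hb, add_zero]
  smul_mem' := by
    intro c f hf
    exact psi_mul_zero S hx c f hf

theorem mem_Idl (f : K[X]) : f ∈ Idl S hx ↔ psi K H x f = 0 := Iff.rfl

instance prime_Idl : (Idl S hx).IsPrime where
  ne_top' := by
    intro h
    have h1 : (1 : K[X]) ∈ Idl S hx := by rw [h]; trivial
    rw [mem_Idl, psi_one] at h1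
    exact H.one_ne h1
  mem_or_mem' := by
    intro f g hfg
    by_contra hcon
    push Not at hcon
    obtain ⟨hf, hg⟩ := hcon
    rw [mem_Idl] at hf hg hfg
    have h1 := corr_all S hx f g
    have h2 : psi K H x (f ^ 2 * g) = 0 := by
      have : f ^ 2 * g = f * (f * g) := by ring
      rw [this]
      exact psi_mul_zero S hx _ _ hfg
    rw [h2] at h1
    exact hg (H.U_inj hf h1)

include S hx in
theorem ne_mul {b c : K[X]} (hb : psi K H x b ≠ 0) (hc : psi K H x c ≠ 0) :
    psi K H x (b * c) ≠ 0 := by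
  intro h
  rcases (prime_Idl S hx).mem_or_mem' ((mem_Idl S hx _).mpr h) with h1 | h1
  · exact hb h1
  · exact hc h1

include S hx in
theorem U_mul {b c : K[X]} (hb : psi K H x b ≠ 0) (hc : psi K H x c ≠ 0) {z : A}
    (hz : H.Gen K x z) : H.U (psi K H x b) (H.U (psi K H x c) z) = H.U (psi K H x (b * c)) z := by
  have hbc := ne_mul S hx hb hc
  have h1 := (SP.ofU S hb).comp (SP.ofU S hc)
  have h2 := SP.ofU S hbc
  refine rigid h1 h2 ?_ ?_ hz
  · change H.U (psi K H x b) (H.U (psi K H x c) H.one) = H.U (psi K H x (b * c)) H.one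
    rw [← psi_one (K := K) (H := H) (x := x), corr_all S hx, corr_all S hx, corr_all S hx]
    congr 1
    ring
  · change H.U (psi K H x b) (H.U (psi K H x c) x) = H.U (psi K H x (b * c)) x
    have e : x = psi K H x (X : K[X]) := psi_X.symm
    have h3 : H.U (psi K H x c) x = H.U (psi K H x c) (psi K H x (X : K[X])) := by rw [← e]
    have h4 : H.U (psi K H x (b * c)) x = H.U (psi K H x (b * c)) (psi K H x (X : K[X])) := by
      rw [← e]
    rw [h3, h4, corr_all S hx, corr_all S hx, corr_all S hx]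
    congr 1
    ring

include S hx in
theorem U_commG {b c : K[X]} (hb : psi K H x b ≠ 0) (hc : psi K H x c ≠ 0) {z : A}
    (hz : H.Gen K x z) : H.U (psi K H x b) (H.U (psi K H x c) z) =
      H.U (psi K H x c) (H.U (psi K H x b) z) := by
  rw [U_mul S hx hb hc hz, U_mul S hx hc hb hz, mul_comm]

/-- The element `a / b`. -/
noncomputable def val (K : Type) [Field K] [Module K A] (H : HS A) (x : A) (a b : K[X]) : A :=
  H.U (H.inv (psi K H x b)) (psi K H x (a * b))

omit [Infinite K] [NeZero (2 : K)] in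
theorem Gen.val (a b : K[X]) : H.Gen K x (val K H x a b) := (Gen.psi b).inv.U (Gen.psi _)

omit [Infinite K] [NeZero (2 : K)] in
theorem U_val {a b : K[X]} (hb : psi K H x b ≠ 0) :
    H.U (psi K H x b) (val K H x a b) = psi K H x (a * b) := H.U_inv_right _ _ hb

include S hx in
theorem val_congr {a b a' b' : K[X]} (hb : psi K H x b ≠ 0) (hb' : psi K H x b' ≠ 0)
    (h : psi K H x (a * b' - a' * b) = 0) : val K H x a b = val K H x a' b' := by
  apply H.U_inj' hb
  apply H.U_inj' hb'
  rw [U_val hb, U_commG S hx hb' hb (Gen.val a' b'), U_val hb', corr_all S hx,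
    corr_all S hx, ← sub_eq_zero, ← map_sub]
  have e : b' ^ 2 * (a * b) - b ^ 2 * (a' * b') = (b * b') * (a * b' - a' * b) := by ring
  rw [e]
  exact psi_mul_zero S hx _ _ h

omit [Infinite K] [NeZero (2 : K)] in
theorem val_add (a c b : K[X]) : val K H x (a + c) b = val K H x a b + val K H x c b := by
  unfold val
  rw [add_mul, map_add, map_add]

/-- The fraction field. -/
abbrev Lf (S : H.Scal K) {x : A} (hx : ∀ s : K, x - s • H.one ≠ 0) : Type :=
  FractionRing (K[X] ⧸ Idl S hx)

/-- The quotient map to the fraction field. -/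
noncomputable def pr (S : H.Scal K) {x : A} (hx : ∀ s : K, x - s • H.one ≠ 0) :
    K[X] →+* Lf S hx :=
  (algebraMap (K[X] ⧸ Idl S hx) (Lf S hx)).comp (Ideal.Quotient.mk (Idl S hx))

theorem pr_eq_zero (f : K[X]) : pr S hx f = 0 ↔ psi K H x f = 0 := by
  unfold pr
  rw [RingHom.comp_apply, IsFractionRing.to_map_eq_zero_iff, Ideal.Quotient.eq_zero_iff_mem,
    mem_Idl]

theorem pr_div_surj (u : Lf S hx) : ∃ a b : K[X], psi K H x b ≠ 0 ∧ u = pr S hx a / pr S hx b := by
  obtain ⟨r, s, hs, hu⟩ := IsFractionRing.div_surjective (A := K[X] ⧸ Idl S hx) u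
  obtain ⟨a, rfl⟩ := Ideal.Quotient.mk_surjective r
  obtain ⟨b, rfl⟩ := Ideal.Quotient.mk_surjective s
  refine ⟨a, b, ?_, hu.symm⟩
  intro h
  apply nonZeroDivisors.ne_zero hs
  rw [Ideal.Quotient.eq_zero_iff_mem, mem_Idl]
  exact h

/-- Numerator. -/
noncomputable def nu (u : Lf S hx) : K[X] := (pr_div_surj S hx u).choose

/-- Denominator. -/
noncomputable def de (u : Lf S hx) : K[X] := (pr_div_surj S hx u).choose_spec.choose

theorem de_ne (u : Lf S hx) : psi K H x (de S hx u) ≠ 0 :=
  (pr_div_surj S hx u).choose_spec.choose_spec.1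

theorem nu_de (u : Lf S hx) : u = pr S hx (nu S hx u) / pr S hx (de S hx u) :=
  (pr_div_surj S hx u).choose_spec.choose_spec.2

/-- The embedding of the field. -/
noncomputable def phi0 (u : Lf S hx) : A := val K H x (nu S hx u) (de S hx u)

theorem phi0_eq (a b : K[X]) (hb : psi K H x b ≠ 0) :
    phi0 S hx (pr S hx a / pr S hx b) = val K H x a b := by
  set u := pr S hx a / pr S hx b with hu
  have h1 := nu_de S hx u
  have hd := de_ne S hx u
  unfold phi0
  apply val_congr S hx hd hb
  rw [← pr_eq_zero S hx, map_sub, map_mul, map_mul, sub_eq_zero]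
  have hb' : pr S hx b ≠ 0 := fun h => hb ((pr_eq_zero S hx b).mp h)
  have hd' : pr S hx (de S hx u) ≠ 0 := fun h => hd ((pr_eq_zero S hx _).mp h)
  have h2 : pr S hx a / pr S hx b = pr S hx (nu S hx u) / pr S hx (de S hx u) := by
    rw [← hu]; exact h1
  rw [div_eq_div_iff hb' hd'] at h2
  exact h2.symm

theorem phi0_add (u v : Lf S hx) : phi0 S hx (u + v) = phi0 S hx u + phi0 S hx v := by
  obtain ⟨a, b, hb, rfl⟩ := pr_div_surj S hx u
  obtain ⟨c, d, hd, rfl⟩ := pr_div_surj S hx v
  have hbd := ne_mul S hx hb hd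
  have hb' : pr S hx b ≠ 0 := fun h => hb ((pr_eq_zero S hx b).mp h)
  have hd' : pr S hx d ≠ 0 := fun h => hd ((pr_eq_zero S hx _).mp h)
  have e1 : pr S hx a / pr S hx b = pr S hx (a * d) / pr S hx (b * d) := by
    rw [map_mul, map_mul]; field_simp
  have e2 : pr S hx c / pr S hx d = pr S hx (c * b) / pr S hx (b * d) := by
    rw [map_mul, map_mul]; field_simp
  have e3 : pr S hx a / pr S hx b + pr S hx c / pr S hx d =
      pr S hx (a * d + c * b) / pr S hx (b * d) := by
    rw [e1, e2, map_add, add_div]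
  rw [e3, e1, e2, phi0_eq S hx _ _ hbd, phi0_eq S hx _ _ hbd, phi0_eq S hx _ _ hbd, val_add]

theorem algebraMap_eq (t : K) : algebraMap K (Lf S hx) t = pr S hx (C t) := by
  unfold pr
  rw [RingHom.comp_apply, IsScalarTower.algebraMap_apply K (K[X] ⧸ Idl S hx) (Lf S hx)]
  rfl

theorem phi0_smul (t : K) (u : Lf S hx) : phi0 S hx (t • u) = t • phi0 S hx u := by
  obtain ⟨a, b, hb, rfl⟩ := pr_div_surj S hx u
  have e1 : t • (pr S hx a / pr S hx b) = pr S hx (C t * a) / pr S hx b := by
    rw [Algebra.smul_def, algebraMap_eq, map_mul, mul_div_assoc]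
  rw [e1, phi0_eq S hx _ _ hb, phi0_eq S hx _ _ hb]
  unfold val
  rw [mul_assoc, psi_C_mul, S.U_smul]

/-- The embedding as a linear map. -/
noncomputable def phi : Lf S hx →ₗ[K] A where
  toFun := phi0 S hx
  map_add' := phi0_add S hx
  map_smul' := phi0_smul S hx

theorem phi_eq (a b : K[X]) (hb : psi K H x b ≠ 0) :
    phi S hx (pr S hx a / pr S hx b) = val K H x a b := phi0_eq S hx a b hb

theorem phi_pr (a : K[X]) : phi S hx (pr S hx a) = psi K H x a := by
  have h1 : psi K H x (1 : K[X]) ≠ 0 := by rw [psi_one]; exact H.one_ne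
  have h := phi_eq S hx a 1 h1
  rw [map_one, div_one] at h
  rw [h]
  unfold val
  rw [mul_one, psi_one, H.inv_one, H.U_one]

theorem phi_inj : Function.Injective (phi S hx) := by
  rw [injective_iff_map_eq_zero]
  intro u hu
  obtain ⟨a, b, hb, rfl⟩ := pr_div_surj S hx u
  rw [phi_eq S hx a b hb] at hu
  have h1 : psi K H x (a * b) = 0 := by
    rw [← U_val hb, hu, map_zero]
  have h2 : psi K H x a = 0 := by
    by_contra h
    exact ne_mul S hx h hb h1
  rw [(pr_eq_zero S hx a).mpr h2, zero_div]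

theorem phi_inv (u : Lf S hx) : H.inv (phi S hx u) = phi S hx u⁻¹ := by
  obtain ⟨a, b, hb, rfl⟩ := pr_div_surj S hx u
  by_cases ha : psi K H x a = 0
  · rw [(pr_eq_zero S hx a).mpr ha, zero_div, _root_.inv_zero, map_zero, H.inv_zero]
  have hab := ne_mul S hx ha hb
  rw [inv_div, phi_eq S hx a b hb, phi_eq S hx b a ha]
  have h1 : H.inv (val K H x a b) = H.U (psi K H x b) (H.inv (psi K H x (a * b))) := by
    unfold val
    rw [H.inv_U _ _ (H.inv_ne _ hb), H.inv_inv]
  rw [h1]
  apply H.U_inj' ha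
  rw [U_val ha, U_mul S hx ha hb (Gen.psi _).inv, H.U_self, mul_comm]

theorem phi_U (u v : Lf S hx) : H.U (phi S hx u) (phi S hx v) = phi S hx (u * u * v) := by
  obtain ⟨a, b, hb, rfl⟩ := pr_div_surj S hx u
  obtain ⟨c, d, hd, rfl⟩ := pr_div_surj S hx v
  by_cases ha : psi K H x a = 0
  · rw [(pr_eq_zero S hx a).mpr ha, zero_div, zero_mul, zero_mul, map_zero]
    have h : ∀ z, H.U 0 z = 0 := by intro z; rw [H.U_zero]; rfl
    exact h _
  have hb' : pr S hx b ≠ 0 := fun h => hb ((pr_eq_zero S hx b).mp h)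
  have hd' : pr S hx d ≠ 0 := fun h => hd ((pr_eq_zero S hx _).mp h)
  have hab := ne_mul S hx ha hb
  have hbbd : psi K H x (b * b * d) ≠ 0 := ne_mul S hx (ne_mul S hx hb hb) hd
  have e1 : pr S hx a / pr S hx b * (pr S hx a / pr S hx b) * (pr S hx c / pr S hx d) =
      pr S hx (a * a * c) / pr S hx (b * b * d) := by
    simp only [map_mul]
    field_simp
  rw [e1, phi_eq S hx a b hb, phi_eq S hx c d hd, phi_eq S hx _ _ hbbd]
  -- compare after applying U_b twice and U_d
  have h1 : H.U (val K H x a b) (val K H x c d) =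
      H.U (H.inv (psi K H x b)) (H.U (psi K H x (a * b))
        (H.U (H.inv (psi K H x b)) (val K H x c d))) := by
    conv_lhs => unfold val
    rw [H.U_U]
    rfl
  have hG1 : H.Gen K x (H.U (H.inv (psi K H x b)) (val K H x c d)) :=
    (Gen.psi b).inv.U (Gen.val c d)
  have hG2 : H.Gen K x (H.U (val K H x a b) (val K H x c d)) := (Gen.val a b).U (Gen.val c d)
  apply H.U_inj' hbbd
  rw [U_val hbbd, ← U_mul S hx (ne_mul S hx hb hb) hd hG2, ← U_mul S hx hb hb ((Gen.psi d).U hG2),
    U_commG S hx hb hd hG2, h1, H.U_inv_right _ _ hb,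
    U_commG S hx hb hd ((Gen.psi (a * b)).U hG1), U_commG S hx hb hab hG1,
    H.U_inv_right _ _ hb, U_commG S hx hd hab (Gen.val c d), U_val hd, corr_all S hx]
  congr 1
  ring

include S hx in
theorem exists_field' : ∃ (L : Type) (_ : Field L) (_ : Algebra K L) (φ : L →ₗ[K] A),
    Function.Injective φ ∧ φ 1 = H.one ∧ (∃ u, φ u = x) ∧
    (∀ u, H.inv (φ u) = φ u⁻¹) ∧ (∀ u v, H.U (φ u) (φ v) = φ (u * u * v)) := by
  refine ⟨Lf S hx, inferInstance, inferInstance, phi S hx, phi_inj S hx, ?_, ?_, phi_inv S hx,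
    phi_U S hx⟩
  · have h := phi_pr S hx 1
    rw [map_one, psi_one] at h
    exact h
  · exact ⟨pr S hx X, by rw [phi_pr, psi_X]⟩

include S in
theorem exists_field (x : A) : ∃ (L : Type) (_ : Field L) (_ : Algebra K L) (φ : L →ₗ[K] A),
    Function.Injective φ ∧ φ 1 = H.one ∧ (∃ u, φ u = x) ∧
    (∀ u, H.inv (φ u) = φ u⁻¹) ∧ (∀ u v, H.U (φ u) (φ v) = φ (u * u * v)) := by
  by_cases hx : ∀ s : K, x - s • H.one ≠ 0
  · exact exists_field' S hx
  · push Not at hx
    obtain ⟨s, hs⟩ := hx
    refine ⟨K, inferInstance, inferInstance, LinearMap.toSpanSingleton K A H.one, ?_, ?_, ?_,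
      ?_, ?_⟩
    · rw [injective_iff_map_eq_zero]
      intro t ht
      rw [LinearMap.toSpanSingleton_apply] at ht
      exact (smul_eq_zero.mp ht).resolve_right H.one_ne
    · rw [LinearMap.toSpanSingleton_apply, one_smul]
    · exact ⟨s, by rw [LinearMap.toSpanSingleton_apply, ← sub_eq_zero.mp hs]⟩
    · intro t
      rw [LinearMap.toSpanSingleton_apply, LinearMap.toSpanSingleton_apply]
      by_cases ht : t = 0
      · subst ht
        rw [zero_smul, H.inv_zero, _root_.inv_zero, zero_smul]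
      · rw [S.inv_smul t _ ht, H.inv_one]
    · intro t r
      rw [LinearMap.toSpanSingleton_apply, LinearMap.toSpanSingleton_apply,
        LinearMap.toSpanSingleton_apply, S.U_smul_left, S.U_smul, H.U_one, smul_smul]

end HS

end Pool.Agent.HuaOne84
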