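import Mathlib
import Pool.Agent.HuaOne84.Basic

/-!
Torsion-free Hua systems are rational vector spaces, and the inversion inverts scalars.
-/

set_option autoImplicit false

namespace Pool.Agent.HuaOne84

open Pool.Agent.HuaTop84

section Module

variable {A : Type} [AddCommGroup A]

theorem cancel_int (hA : ∀ (n : ℕ) (a : A), n ≠ 0 → n • a = 0 → a = 0) {n : ℤ} (hn : n ≠ 0)
    {a b : A} (h : n • a = n • b) : a = b := by
  have h1 : n • (a - b) = 0 := by rw [smul_sub, h, sub_self]
  have h2 : n.natAbs • (a - b) = 0 := by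
    rcases Int.natAbs_eq n with h3 | h3
    · rw [h3, natCast_zsmul] at h1
      exact h1
    · rw [h3, neg_smul, natCast_zsmul, neg_eq_zero] at h1
      exact h1
  exact sub_eq_zero.mp (hA _ _ (Int.natAbs_ne_zero.mpr hn) h2)

/-- Multiplication by a rational number. -/
noncomputable def qs (hdiv : ∀ (n : ℕ) (a : A), n ≠ 0 → ∃ b : A, n • b = a) (q : ℚ) (a : A) : A :=
  (hdiv q.den (q.num • a) q.den_ne_zero).choose

theorem qs_spec (hdiv : ∀ (n : ℕ) (a : A), n ≠ 0 → ∃ b : A, n • b = a) (q : ℚ) (a : A) :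
    (q.den : ℤ) • qs hdiv q a = q.num • a := by
  rw [natCast_zsmul]
  exact (hdiv q.den (q.num • a) q.den_ne_zero).choose_spec

theorem qs_char (hA : ∀ (n : ℕ) (a : A), n ≠ 0 → n • a = 0 → a = 0)
    (hdiv : ∀ (n : ℕ) (a : A), n ≠ 0 → ∃ b : A, n • b = a) (q : ℚ) (a : A) {n m : ℤ}
    (h : (n : ℚ) * q = m) : n • qs hdiv q a = m • a := by
  have hd : (q.den : ℤ) ≠ 0 := by exact_mod_cast q.den_ne_zero
  apply cancel_int hA hd
  rw [smul_comm, qs_spec, smul_smul, smul_smul]
  congr 1
  have h1 : (n : ℚ) * q.num = m * q.den := by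
    rw [← h, mul_assoc, Rat.mul_den_eq_num]
  have h2 : n * q.num = m * (q.den : ℤ) := by exact_mod_cast h1
  rw [h2, mul_comm]

/-- The rational vector space structure. -/
@[reducible] noncomputable def ratModule (hA : ∀ (n : ℕ) (a : A), n ≠ 0 → n • a = 0 → a = 0)
    (hdiv : ∀ (n : ℕ) (a : A), n ≠ 0 → ∃ b : A, n • b = a) : Module ℚ A where
  smul := qs hdiv
  one_smul a := by
    change qs hdiv 1 a = a
    have h := qs_char hA hdiv 1 a (n := 1) (m := 1) (by norm_num)
    rwa [one_smul, one_smul] at h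
  mul_smul x y a := by
    change qs hdiv (x * y) a = qs hdiv x (qs hdiv y a)
    have hx : (x.den : ℤ) ≠ 0 := by exact_mod_cast x.den_ne_zero
    have hy : (y.den : ℤ) ≠ 0 := by exact_mod_cast y.den_ne_zero
    apply cancel_int hA (mul_ne_zero hx hy)
    rw [qs_char hA hdiv (x * y) a (n := (x.den : ℤ) * y.den) (m := x.num * y.num) (by
      push_cast
      rw [← Rat.mul_den_eq_num x, ← Rat.mul_den_eq_num y]
      ring)]
    rw [mul_comm (x.den : ℤ) (y.den : ℤ), mul_smul (y.den : ℤ), qs_spec,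
      smul_comm (y.den : ℤ), qs_spec, smul_smul]
  smul_zero x := by
    change qs hdiv x 0 = 0
    have hx : (x.den : ℤ) ≠ 0 := by exact_mod_cast x.den_ne_zero
    apply cancel_int hA hx
    rw [qs_spec, smul_zero, smul_zero]
  smul_add x a b := by
    change qs hdiv x (a + b) = qs hdiv x a + qs hdiv x b
    have hx : (x.den : ℤ) ≠ 0 := by exact_mod_cast x.den_ne_zero
    apply cancel_int hA hx
    rw [qs_spec, smul_add, smul_add, qs_spec, qs_spec]
  add_smul x y a := by
    change qs hdiv (x + y) a = qs hdiv x a + qs hdiv y a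
    have hx : (x.den : ℤ) ≠ 0 := by exact_mod_cast x.den_ne_zero
    have hy : (y.den : ℤ) ≠ 0 := by exact_mod_cast y.den_ne_zero
    apply cancel_int hA (mul_ne_zero hx hy)
    rw [qs_char hA hdiv (x + y) a (n := (x.den : ℤ) * y.den)
      (m := x.num * y.den + y.num * x.den) (by
      push_cast
      rw [← Rat.mul_den_eq_num x, ← Rat.mul_den_eq_num y]
      ring)]
    rw [smul_add, mul_comm (x.den : ℤ), mul_smul, qs_spec, mul_comm (y.den : ℤ), mul_smul,
      qs_spec, add_smul, smul_smul, smul_smul]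
    congr 2 <;> ring
  zero_smul a := by
    change qs hdiv 0 a = 0
    have h := qs_char hA hdiv 0 a (n := 1) (m := 0) (by norm_num)
    rwa [one_smul, zero_smul] at h

end Module

namespace HS

variable {A : Type} [AddCommGroup A] (H : HS A)

theorem smul_inv_smul (hA : ∀ (n : ℕ) (a : A), n ≠ 0 → n • a = 0 → a = 0) :
    ∀ (n : ℕ) (u : A), n ≠ 0 → n • H.inv (n • u) = H.inv u := by
  intro n
  induction n with
  | zero => intro u h; exact absurd rfl h
  | succ n ih =>
    intro u _
    by_cases hu : u = 0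
    · subst hu
      rw [smul_zero, H.inv_zero, smul_zero]
    by_cases hn : n = 0
    · subst hn
      rw [zero_add, one_smul, one_smul]
    have hnu : n • u ≠ 0 := fun h => hu (hA n u hn h)
    have hsu : n • u + u ≠ 0 := by
      intro h
      apply hu
      apply hA (n + 1) u (Nat.succ_ne_zero n)
      rw [succ_nsmul]
      exact h
    -- U (n u) (inv u) = n ^ 2 u
    have h1 : H.U (n • u) (H.inv u) = n • n • u := by
      rw [← ih u hn, map_nsmul, H.U_self]
    have h2 := H.inv_add (n • u) u hnu hu hsu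
    -- inv (n u + u) = inv (n u) - U_{inv (n u)} (inv (inv (n u) + inv u))
    have hu' := H.inv_ne u hu
    have h3 : H.U (H.inv (n • u)) (H.inv (H.inv (n • u) + H.inv u)) =
        H.inv ((n * (n + 1)) • u) := by
      rw [← H.inv_inv (H.U (H.inv (n • u)) (H.inv (H.inv (n • u) + H.inv u))),
        H.inv_U _ _ (H.inv_ne _ hnu), H.inv_inv, H.inv_inv, map_add, H.U_self, h1]
      congr 1
      rw [← mul_smul, ← add_nsmul]
      congr 1
      ring
    rw [h3] at h2
    have h4 := ih (n • u + u) hn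
    have e1 : n • (n • u + u) = (n * (n + 1)) • u := by
      rw [← succ_nsmul, ← mul_smul]
    rw [e1] at h4
    have h5 : n • H.inv (n • u + u) = H.inv u - H.inv (n • u + u) := by
      have h6 := congrArg (fun z => n • z) h2
      simp only [nsmul_sub] at h6
      rw [ih u hn, h4] at h6
      exact h6
    rw [succ_nsmul u n, succ_nsmul, h5]
    abel

include H in
theorem divisible (hA : ∀ (n : ℕ) (a : A), n ≠ 0 → n • a = 0 → a = 0) (n : ℕ) (a : A)
    (hn : n ≠ 0) : ∃ b : A, n • b = a := by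
  refine ⟨H.inv (n • H.inv a), ?_⟩
  rw [smul_inv_smul H hA n _ hn, H.inv_inv]

theorem zsmul_inv_zsmul (hA : ∀ (n : ℕ) (a : A), n ≠ 0 → n • a = 0 → a = 0) (n : ℤ) (u : A)
    (hn : n ≠ 0) : n • H.inv (n • u) = H.inv u := by
  rcases Int.natAbs_eq n with h3 | h3
  · rw [h3, natCast_zsmul, natCast_zsmul]
    exact smul_inv_smul H hA _ u (Int.natAbs_ne_zero.mpr hn)
  · rw [h3, neg_smul, neg_smul, natCast_zsmul, natCast_zsmul, H.inv_neg, smul_neg, neg_neg]
    exact smul_inv_smul H hA _ u (Int.natAbs_ne_zero.mpr hn)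

theorem ratScal (hA : ∀ (n : ℕ) (a : A), n ≠ 0 → n • a = 0 → a = 0) [Module ℚ A] :
    H.Scal ℚ := by
  constructor
  · intro q a hq
    have hn : q.num ≠ 0 := Rat.num_ne_zero.mpr hq
    have hd : (q.den : ℤ) ≠ 0 := by exact_mod_cast q.den_ne_zero
    have h1 : (q.den : ℤ) • (q • a) = q.num • a := by
      rw [← Int.cast_smul_eq_zsmul ℚ, ← Int.cast_smul_eq_zsmul ℚ, smul_smul]
      congr 1
      rw [mul_comm]
      push_cast
      exact Rat.mul_den_eq_num q
    have h2 := zsmul_inv_zsmul H hA q.den (q • a) hd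
    have h3 := zsmul_inv_zsmul H hA q.num a hn
    rw [h1] at h2
    -- inv (q a) = den • inv (num a), num • inv (num a) = inv a
    apply cancel_int hA hn
    rw [← h2, smul_comm, h3, ← Int.cast_smul_eq_zsmul ℚ, ← Int.cast_smul_eq_zsmul ℚ, smul_smul]
    congr 1
    have hq' : (q.num : ℚ) = q * q.den := (Rat.mul_den_eq_num q).symm
    push_cast
    rw [hq']
    field_simp
  · intro a q z
    exact map_rat_smul (H.U a) q z

end HS

end Pool.Agent.HuaOne84
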