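import Mathlib
import Pool.Agent.HuaOne84.Defs

/-!
The quadratic Jordan division ring of a commutative field, in every characteristic.
-/

set_option autoImplicit false

open scoped TensorProduct

namespace Pool.Agent.HuaOne84

open Pool.Agent.HuaVal

section
variable {k R M : Type} [CommRing k] [CommRing R] [Algebra k R] [AddCommGroup M] [Module k M]

/-- the quadratic map `z ↦ z²` of a commutative ring, transported to `M` -/
def sqU (Ψ : R ≃ₗ[k] M) : QuadraticMap k M (Module.End k M) :=
  (Ψ.conj.toLinearMap.comp (LinearMap.mul k R)).compQuadraticMap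
    ((QuadraticMap.sq (R := k) (A := R)).comp Ψ.symm.toLinearMap)

theorem sqU_apply (Ψ : R ≃ₗ[k] M) (r s : R) : sqU Ψ (Ψ r) (Ψ s) = Ψ (r * r * s) := by
  simp [sqU, LinearEquiv.conj_apply]

theorem sqU_jordan (Ψ : R ≃ₗ[k] M) : JordanIdentities (sqU Ψ) (Ψ 1) := by
  refine ⟨?_, ?_, ?_⟩
  · ext m
    obtain ⟨s, rfl⟩ := Ψ.surjective m
    rw [sqU_apply]
    simp
  · intro a b c
    obtain ⟨a, rfl⟩ := Ψ.surjective a
    obtain ⟨b, rfl⟩ := Ψ.surjective b
    obtain ⟨c, rfl⟩ := Ψ.surjective c
    rw [sqU_apply]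
    unfold QuadraticMap.polar
    rw [← map_add, ← map_add]
    simp only [LinearMap.sub_apply, sqU_apply]
    rw [← map_sub, ← map_sub, ← map_sub, ← map_sub, sqU_apply]
    congr 1
    ring
  · intro a b
    ext m
    obtain ⟨a, rfl⟩ := Ψ.surjective a
    obtain ⟨b, rfl⟩ := Ψ.surjective b
    obtain ⟨c, rfl⟩ := Ψ.surjective m
    rw [sqU_apply]
    simp only [Module.End.mul_apply, sqU_apply]
    congr 1
    ring

end

/-- Two quadratic maps on an extension of scalars which agree on the elements `1 ⊗ a` are equal. -/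
theorem quad_ext {Ω A N : Type} [CommRing Ω] [AddCommGroup A] [AddCommGroup N] [Module Ω N]
    (Q Q' : QuadraticMap Ω (Ω ⊗[ℤ] A) N)
    (h : ∀ a : A, Q ((1 : Ω) ⊗ₜ[ℤ] a) = Q' ((1 : Ω) ⊗ₜ[ℤ] a)) : Q = Q' := by
  have hp : ∀ x y, QuadraticMap.polar Q x y = QuadraticMap.polar Q' x y := by
    intro x y
    have hB : Q.polarBilin = Q'.polarBilin := by
      ext a b
      simp only [TensorProduct.AlgebraTensorModule.curry_apply, TensorProduct.curry_apply,
        LinearMap.coe_restrictScalars, QuadraticMap.polarBilin_apply_apply]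
      unfold QuadraticMap.polar
      rw [← TensorProduct.tmul_add, h, h, h]
    have := congrArg (fun B => B x y) hB
    simpa using this
  refine QuadraticMap.ext fun x => ?_
  induction x using TensorProduct.induction_on with
  | zero => simp
  | tmul ω a =>
    have e : ω ⊗ₜ[ℤ] a = ω • ((1 : Ω) ⊗ₜ[ℤ] a) := by
      rw [TensorProduct.smul_tmul', smul_eq_mul, mul_one]
    rw [e, QuadraticMap.map_smul, QuadraticMap.map_smul, h]
  | add x y hx hy =>
    have h1 := hp x y
    unfold QuadraticMap.polar at h1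
    rw [hx, hy] at h1
    exact sub_left_injective (sub_left_injective h1)

/-- A Hua system which is the one of a commutative field arises from a quadratic Jordan division
ring. -/
theorem ofField' (A : Type) [AddCommGroup A] (j : A → Option A → Option A)
    (L : Type) [Field L] (φ : L →+ A) (hinj : Function.Injective φ)
    (hsurj : Function.Surjective φ) (hφ : IsFieldPart j φ) : FromJordan j := by
  let E : L ≃ₗ[ℤ] A := (AddEquiv.ofBijective φ ⟨hinj, hsurj⟩).toIntLinearEquiv
  have hE : ∀ u, E u = φ u := fun _ => rfl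
  refine ⟨E 1, sqU E, sqU_jordan E, ?_, ?_, ?_⟩
  · intro Ω _ U' hU'
    let Ψ : Ω ⊗[ℤ] L ≃ₗ[Ω] Ω ⊗[ℤ] A := E.baseChange ℤ Ω L A
    have hΨ : ∀ (ω : Ω) (u : L), Ψ (ω ⊗ₜ u) = ω ⊗ₜ E u := fun _ _ => rfl
    have hU : U' = sqU Ψ := by
      apply quad_ext
      intro a
      ext c
      obtain ⟨a, rfl⟩ := E.surjective a
      obtain ⟨c, rfl⟩ := E.surjective c
      simp only [TensorProduct.AlgebraTensorModule.curry_apply, TensorProduct.curry_apply,
        LinearMap.coe_restrictScalars]
      rw [hU', sqU_apply, ← hΨ 1 a, ← hΨ 1 c, sqU_apply, ← hΨ 1 (a * a * c)]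
      congr 1
      simp
    rw [hU]
    have h1 : (1 : Ω) ⊗ₜ[ℤ] E 1 = Ψ 1 := rfl
    rw [h1]
    exact sqU_jordan Ψ
  · intro a ha
    obtain ⟨a, rfl⟩ := E.surjective a
    have ha' : a ≠ 0 := by
      rintro rfl
      exact ha (map_zero E)
    constructor
    · intro x y hxy
      obtain ⟨x, rfl⟩ := E.surjective x
      obtain ⟨y, rfl⟩ := E.surjective y
      rw [sqU_apply, sqU_apply] at hxy
      have := E.injective hxy
      rw [mul_right_inj' (mul_ne_zero ha' ha')] at this
      rw [this]
    · intro y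
      obtain ⟨y, rfl⟩ := E.surjective y
      refine ⟨E ((a * a)⁻¹ * y), ?_⟩
      rw [sqU_apply]
      congr 1
      field_simp
  · intro a b c ha hb hbc
    obtain ⟨a, rfl⟩ := E.surjective a
    obtain ⟨b, rfl⟩ := E.surjective b
    obtain ⟨c, rfl⟩ := E.surjective c
    have ha' : a ≠ 0 := by
      rintro rfl
      exact ha (map_zero E)
    have hb' : b ≠ 0 := by
      rintro rfl
      exact hb (map_zero E)
    rw [sqU_apply] at hbc
    have h1 := E.injective hbc
    have h2 : c = b⁻¹ := by
      field_simp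
      have h3 : b * (b * c) = b * 1 := by rw [← mul_assoc, h1, mul_one]
      have := mul_left_cancel₀ hb' h3
      rw [mul_comm]
      exact this
    rw [sqU_apply, h2]
    exact hφ a b ha' hb'

end Pool.Agent.HuaOne84
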