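import Mathlib
import Pool.Agent.HuaOne84.Frac
import Pool.Agent.HuaOne84.Rat

/-!
Two elements of a Hua system of characteristic zero lie in a field.
-/

set_option autoImplicit false

namespace Pool.Agent.HuaOne84

open Pool.Agent.HuaTop84 Pool.Agent.HuaVal

/-- The linear version over an infinite field `K` of characteristic not two. -/
theorem oneGenK (K : Type) [Field K] [Infinite K] [NeZero (2 : K)] (A : Type) [AddCommGroup A] [Module K A]
    (j : A → Option A → Option A) (hj : IsHua j)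
    (hK : ∀ (t : K) (a b c : A), t ≠ 0 → a ≠ 0 → b ≠ 0 → j a (some b) = some c →
      j a (some (t • b)) = some (t⁻¹ • c))
    (e x : A) (he : e ≠ 0) :
    ∃ (L : Type) (_ : Field L) (_ : Algebra K L) (φ : L →ₗ[K] A),
      Function.Injective φ ∧ φ 1 = e ∧ (∃ u, φ u = x) ∧
      ∀ u v : L, u ≠ 0 → v ≠ 0 → j (φ u) (some (φ v)) = some (φ (u * u * v⁻¹)) := by
  obtain ⟨J, hJ, hjJ⟩ := exists_J hj
  set H := toHS hJ e he with hH
  have hsm : ∀ (t : K) (a b : A), t ≠ 0 → a ≠ 0 → J a (t • b) = t⁻¹ • J a b := by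
    intro t a b ht ha
    by_cases hb : b = 0
    · subst hb
      rw [smul_zero, hJ.zero a ha, smul_zero]
    have h1 := hK t a b _ ht ha hb (hjJ a b ha hb)
    rw [hjJ a (t • b) ha (smul_ne_zero ht hb)] at h1
    exact Option.some.inj h1
  have hU : ∀ (a x : A), a ≠ 0 → H.U a x = J a (J e x) := by
    intro a x ha
    exact H_of_ne ha
  have S : H.Scal K := by
    constructor
    · intro t x ht
      exact hsm t e x ht he
    · intro a t x
      by_cases ht : t = 0
      · subst ht; simp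
      by_cases ha : a = 0
      · subst ha
        have h : ∀ z, H.U 0 z = 0 := by intro z; rw [H.U_zero]; rfl
        rw [h, h, smul_zero]
      rw [hU a _ ha, hU a _ ha, hsm t e x ht he, hsm t⁻¹ a _ (inv_ne_zero ht) ha, inv_inv]
  obtain ⟨L, iF, iA, φ, h1, h2, h3, h4, h5⟩ := HS.exists_field S x
  refine ⟨L, iF, iA, φ, h1, h2, h3, ?_⟩
  intro u v hu hv
  have hu' : φ u ≠ 0 := by
    intro h
    apply hu
    apply h1
    rw [h, map_zero]
  have hv' : φ v ≠ 0 := by
    intro h
    apply hv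
    apply h1
    rw [h, map_zero]
  rw [hjJ _ _ hu' hv']
  congr 1
  rw [← h5, ← h4, hU _ _ hu']
  change _ = J (φ u) (J e (J e (φ v)))
  rw [hJ.inv e _ he]

/-- The torsion-free version. -/
theorem oneGen (A : Type) [AddCommGroup A]
    (hA : ∀ (n : ℕ) (a : A), n ≠ 0 → n • a = 0 → a = 0)
    (j : A → Option A → Option A) (hj : IsHua j) (e x : A) (he : e ≠ 0) :
    ∃ (L : Type) (_ : Field L) (φ : L →+ A),
      Function.Injective φ ∧ φ 1 = e ∧ (∃ u, φ u = x) ∧
      ∀ u v : L, u ≠ 0 → v ≠ 0 → j (φ u) (some (φ v)) = some (φ (u * u * v⁻¹)) := by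
  obtain ⟨J, hJ, hjJ⟩ := exists_J hj
  letI : Module ℚ A := ratModule hA (fun n a hn => (toHS hJ e he).divisible hA n a hn)
  have hK : ∀ (t : ℚ) (a b c : A), t ≠ 0 → a ≠ 0 → b ≠ 0 → j a (some b) = some c →
      j a (some (t • b)) = some (t⁻¹ • c) := by
    intro t a b c ht ha hb hc
    have S := (toHS hJ a ha).ratScal hA
    rw [hjJ a b ha hb] at hc
    rw [hjJ a _ ha (smul_ne_zero ht hb), ← Option.some.inj hc]
    congr 1
    exact S.inv_smul t b ht
  obtain ⟨L, iF, iA, φ, h1, h2, h3, h4⟩ := oneGenK ℚ A j hj hK e x he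
  exact ⟨L, iF, φ.toAddMonoidHom, h1, h2, h3, h4⟩

end Pool.Agent.HuaOne84
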