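import Mathlib
import Pool.Agent.HuaOne84.Comm
import Pool.Agent.HuaOne84.Main

/-!
The sub Hua system generated by two points is the one of a commutative field.
-/

set_option autoImplicit false

namespace Pool.Agent.HuaOne84

open Pool.Agent.HuaTop84 Pool.Agent.HuaVal

/-- an additive subgroup of a field of characteristic not two, which contains `1` and is closed
under `u² v⁻¹`, is closed under products -/
theorem sub_mul {L : Type} [Field L] (h2 : (2 : L) ≠ 0) (S : AddSubgroup L) (h1 : (1 : L) ∈ S)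
    (hS : ∀ u v : L, u ∈ S → v ∈ S → u ≠ 0 → v ≠ 0 → u * u * v⁻¹ ∈ S) :
    (∀ u, u ∈ S → u⁻¹ ∈ S) ∧ ∀ u v, u ∈ S → v ∈ S → u * v ∈ S := by
  have hinv : ∀ u, u ∈ S → u⁻¹ ∈ S := by
    intro u hu
    by_cases h : u = 0
    · subst h; rw [inv_zero]; exact S.zero_mem
    · have := hS 1 u h1 hu one_ne_zero h
      rwa [one_mul, one_mul] at this
  have hsq : ∀ u v, u ∈ S → v ∈ S → u * u * v ∈ S := by
    intro u v hu hv
    by_cases h : u = 0
    · subst h; rw [zero_mul, zero_mul]; exact S.zero_mem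
    by_cases h' : v = 0
    · subst h'; rw [mul_zero]; exact S.zero_mem
    have := hS u v⁻¹ hu (hinv v hv) h (inv_ne_zero h')
    rwa [inv_inv] at this
  have h2S : (2 : L) ∈ S := by
    have := S.add_mem h1 h1
    rwa [one_add_one_eq_two] at this
  have hhalf : ∀ w, w ∈ S → 2⁻¹ * w ∈ S := by
    intro w hw
    have h := hsq (2⁻¹) w (hinv 2 h2S) hw
    have h' := S.add_mem h h
    have e : 2⁻¹ * 2⁻¹ * w + 2⁻¹ * 2⁻¹ * w = 2⁻¹ * w := by
      field_simp
      ring
    rwa [e] at h'
  refine ⟨hinv, ?_⟩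
  intro u v hu hv
  have a1 := hsq (u + v) 1 (S.add_mem hu hv) h1
  have a2 := hsq u 1 hu h1
  have a3 := hsq v 1 hv h1
  have h := hhalf _ (S.sub_mem (S.sub_mem a1 a2) a3)
  have e : 2⁻¹ * ((u + v) * (u + v) * 1 - u * u * 1 - v * v * 1) = u * v := by
    field_simp
    ring
  rwa [e] at h

/-- Torsion-free version. -/
theorem gen (A : Type) [AddCommGroup A]
    (hA : ∀ (n : ℕ) (a : A), n ≠ 0 → n • a = 0 → a = 0)
    (j : A → Option A → Option A) (hj : IsHua j) (e x : A) (he : e ≠ 0) :
    ∃ (L : Type) (_ : Field L) (φ : L →+ A),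
      Function.Injective φ ∧ φ 1 = e ∧ (∃ u, φ u = x) ∧ IsFieldPart j φ ∧
      ∀ B : AddSubgroup A, e ∈ B → x ∈ B →
        (∀ a b c : A, a ∈ B → b ∈ B → a ≠ 0 → b ≠ 0 → j a (some b) = some c → c ∈ B) →
        ∀ u, φ u ∈ B := by
  obtain ⟨L, iF, φ, hinj, h1, ⟨t, ht⟩, hφ⟩ := oneGen A hA j hj e x he
  have h2 : (2 : L) ≠ 0 := by
    intro h
    apply he
    apply hA 2 e (by norm_num)
    rw [two_nsmul, ← h1, ← map_add, one_add_one_eq_two, h, map_zero]
  let L' : Subfield L := Subfield.closure {t}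
  refine ⟨L', inferInstance, φ.comp L'.subtype.toAddMonoidHom, ?_, ?_, ?_, ?_, ?_⟩
  · intro u v huv
    exact Subtype.ext (hinj huv)
  · exact h1
  · exact ⟨⟨t, Subfield.subset_closure rfl⟩, ht⟩
  · intro u v hu hv
    exact hφ u v (fun h => hu (Subtype.ext h)) (fun h => hv (Subtype.ext h))
  · intro B heB hxB hB u
    let S : AddSubgroup L := B.comap φ
    have h1S : (1 : L) ∈ S := by
      show φ 1 ∈ B
      rw [h1]; exact heB
    have hSS : ∀ u v : L, u ∈ S → v ∈ S → u ≠ 0 → v ≠ 0 → u * u * v⁻¹ ∈ S := by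
      intro u v hu hv hu0 hv0
      exact hB (φ u) (φ v) _ hu hv (fun h => hu0 (hinj (by rw [h, map_zero])))
        (fun h => hv0 (hinj (by rw [h, map_zero]))) (hφ u v hu0 hv0)
    obtain ⟨hi, hm⟩ := sub_mul h2 S h1S hSS
    let F : Subfield L :=
      { carrier := S
        mul_mem' := fun {a b} ha hb => hm a b ha hb
        one_mem' := h1S
        add_mem' := fun {a b} ha hb => S.add_mem ha hb
        zero_mem' := S.zero_mem
        neg_mem' := fun {a} ha => S.neg_mem ha
        inv_mem' := fun a ha => hi a ha }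
    have hle : L' ≤ F := by
      rw [Subfield.closure_le]
      intro y hy
      rw [Set.mem_singleton_iff] at hy
      subst hy
      show φ y ∈ B
      rw [ht]; exact hxB
    exact hle u.2

/-- Version over an infinite field `K` of characteristic not two. -/
theorem genK (K : Type) [Field K] [Infinite K] (h2 : (2 : K) ≠ 0)
    (A : Type) [AddCommGroup A] [Module K A]
    (j : A → Option A → Option A) (hj : IsHua j)
    (hK : ∀ (t : K) (a b c : A), t ≠ 0 → a ≠ 0 → b ≠ 0 → j a (some b) = some c →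
      j a (some (t • b)) = some (t⁻¹ • c))
    (e x : A) (he : e ≠ 0) :
    ∃ (L : Type) (_ : Field L) (_ : Algebra K L) (φ : L →ₗ[K] A),
      Function.Injective φ ∧ φ 1 = e ∧ (∃ u, φ u = x) ∧ IsFieldPart j φ ∧
      ∀ B : Submodule K A, e ∈ B → x ∈ B →
        (∀ a b c : A, a ∈ B → b ∈ B → a ≠ 0 → b ≠ 0 → j a (some b) = some c → c ∈ B) →
        ∀ u, φ u ∈ B := by
  have : NeZero (2 : K) := ⟨h2⟩
  obtain ⟨L, iF, iA, φ, hinj, h1, ⟨t, ht⟩, hφ⟩ := oneGenK K A j hj hK e x he
  have h2L : (2 : L) ≠ 0 := by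
    have h : algebraMap K L 2 ≠ 0 := by
      rw [Ne, FaithfulSMul.algebraMap_eq_zero_iff]
      exact h2
    rwa [map_ofNat] at h
  let L' : IntermediateField K L := IntermediateField.adjoin K {t}
  refine ⟨L', inferInstance, inferInstance, φ.comp L'.val.toLinearMap, ?_, ?_, ?_, ?_, ?_⟩
  · intro u v huv
    exact Subtype.ext (hinj huv)
  · exact h1
  · exact ⟨⟨t, IntermediateField.subset_adjoin K {t} rfl⟩, ht⟩
  · intro u v hu hv
    exact hφ u v (fun h => hu (Subtype.ext h)) (fun h => hv (Subtype.ext h))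
  · intro B heB hxB hB u
    let S : AddSubgroup L := (B.comap φ).toAddSubgroup
    have h1S : (1 : L) ∈ S := by
      show φ 1 ∈ B
      rw [h1]; exact heB
    have hSS : ∀ u v : L, u ∈ S → v ∈ S → u ≠ 0 → v ≠ 0 → u * u * v⁻¹ ∈ S := by
      intro u v hu hv hu0 hv0
      exact hB (φ u) (φ v) _ hu hv (fun h => hu0 (hinj (by rw [h, map_zero])))
        (fun h => hv0 (hinj (by rw [h, map_zero]))) (hφ u v hu0 hv0)
    obtain ⟨hi, hm⟩ := sub_mul h2L S h1S hSS
    let F : Subfield L :=
      { carrier := S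
        mul_mem' := fun {a b} ha hb => hm a b ha hb
        one_mem' := h1S
        add_mem' := fun {a b} ha hb => S.add_mem ha hb
        zero_mem' := S.zero_mem
        neg_mem' := fun {a} ha => S.neg_mem ha
        inv_mem' := fun a ha => hi a ha }
    let FK : IntermediateField K L := F.toIntermediateField (by
      intro k
      show φ (algebraMap K L k) ∈ B
      rw [Algebra.algebraMap_eq_smul_one, map_smul, h1]
      exact B.smul_mem k heB)
    have hle : L' ≤ FK := by
      rw [IntermediateField.adjoin_le_iff]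
      intro y hy
      rw [Set.mem_singleton_iff] at hy
      subst hy
      show φ y ∈ B
      rw [ht]; exact hxB
    exact hle u.2

end Pool.Agent.HuaOne84
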